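import Mathlib

/-! Bags along a cycle, `K₄` minors, shortest paths through a component. -/

set_option autoImplicit false

namespace Pool.Agent.Q296.CBU

open Finset

variable {V : Type*}

/-- the edges inside `S` -/
def res (G : SimpleGraph V) (S : Set V) : SimpleGraph V where
  Adj x y := G.Adj x y ∧ x ∈ S ∧ y ∈ S
  symm := ⟨fun _ _ h => ⟨h.1.symm, h.2.2, h.2.1⟩⟩
  loopless := ⟨fun x h => G.loopless.irrefl x h.1⟩

lemma res_mono {G : SimpleGraph V} {S T : Set V} (h : S ⊆ T) : res G S ≤ res G T := by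
  intro x y hxy
  exact ⟨hxy.1, h hxy.2.1, h hxy.2.2⟩

/-- connected vertex sets -/
def Con (G : SimpleGraph V) (S : Set V) : Prop :=
  S.Nonempty ∧ ∀ x ∈ S, ∀ y ∈ S, (res G S).Reachable x y

/-- an edge between two sets -/
def E (G : SimpleGraph V) (A B : Set V) : Prop := ∃ a ∈ A, ∃ b ∈ B, G.Adj a b

lemma E.symm {G : SimpleGraph V} {A B : Set V} (h : E G A B) : E G B A := by
  obtain ⟨a, ha, b, hb, hab⟩ := h
  exact ⟨b, hb, a, ha, hab.symm⟩

lemma E.mono {G : SimpleGraph V} {A B A' B' : Set V} (h : E G A B) (h1 : A ⊆ A') (h2 : B ⊆ B') :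
    E G A' B' := by
  obtain ⟨a, ha, b, hb, hab⟩ := h
  exact ⟨a, h1 ha, b, h2 hb, hab⟩

lemma con_single (G : SimpleGraph V) (v : V) : Con G {v} := by
  refine ⟨⟨v, rfl⟩, fun x hx y hy => ?_⟩
  rw [Set.mem_singleton_iff] at hx hy
  rw [hx, hy]

lemma Con.union {G : SimpleGraph V} {A B : Set V} (hA : Con G A) (hB : Con G B) (h : E G A B) :
    Con G (A ∪ B) := by
  obtain ⟨a, ha, b, hb, hab⟩ := h
  have e1 : ∀ x ∈ A, (res G (A ∪ B)).Reachable x a := fun x hx =>
    (hA.2 x hx a ha).mono (res_mono Set.subset_union_left)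
  have e2 : ∀ x ∈ B, (res G (A ∪ B)).Reachable x b := fun x hx =>
    (hB.2 x hx b hb).mono (res_mono Set.subset_union_right)
  have e3 : (res G (A ∪ B)).Reachable b a := by
    apply SimpleGraph.Adj.reachable
    exact ⟨hab.symm, Or.inr hb, Or.inl ha⟩
  have e4 : ∀ x ∈ A ∪ B, (res G (A ∪ B)).Reachable x a := by
    intro x hx
    rcases hx with hx | hx
    · exact e1 x hx
    · exact (e2 x hx).trans e3
  exact ⟨⟨a, Or.inl ha⟩, fun x hx y hy => (e4 x hx).trans (e4 y hy).symm⟩

/-- a `K₄` minor -/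
def K4M (G : SimpleGraph V) : Prop :=
  ∃ A B C D : Set V, (Con G A ∧ Con G B ∧ Con G C ∧ Con G D) ∧
    (Disjoint A B ∧ Disjoint A C ∧ Disjoint A D ∧ Disjoint B C ∧ Disjoint B D ∧ Disjoint C D) ∧
    (E G A B ∧ E G A C ∧ E G A D ∧ E G B C ∧ E G B D ∧ E G C D)

/-- bags -/
structure Bags (G : SimpleGraph V) (C : Finset V) (m : ℕ) (v : ℕ → V) (Z : ℕ → Set V) : Prop where
  con : ∀ i ≤ m, Con G (Z i)
  mem : ∀ i ≤ m, v i ∈ Z i
  disj : ∀ i ≤ m, ∀ j ≤ m, i ≠ j → Disjoint (Z i) (Z j)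
  out : ∀ i ≤ m, ∀ c ∈ C, c ∉ Z i
  adj : ∀ i < m, E G (Z i) (Z (i + 1))
  cyc : 1 ≤ m → E G (Z m) (Z 0)

/-- union of consecutive bags -/
def arc (Z : ℕ → Set V) (i j : ℕ) : Set V := {x | ∃ k, i ≤ k ∧ k < j ∧ x ∈ Z k}

lemma sub_arc {Z : ℕ → Set V} {i j k : ℕ} (h1 : i ≤ k) (h2 : k < j) : Z k ⊆ arc Z i j :=
  fun _ hx => ⟨k, h1, h2, hx⟩

lemma arc_mono {Z : ℕ → Set V} {i j i' j' : ℕ} (h1 : i' ≤ i) (h2 : j ≤ j') :
    arc Z i j ⊆ arc Z i' j' := by
  rintro x ⟨k, hk1, hk2, hx⟩
  exact ⟨k, by omega, by omega, hx⟩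

section

variable {G : SimpleGraph V} {C : Finset V} {m : ℕ} {v : ℕ → V} {Z : ℕ → Set V}

lemma arc_con (hb : Bags G C m v Z) {i j : ℕ} (hij : i < j) (hj : j ≤ m + 1) :
    Con G (arc Z i j) := by
  induction j, hij using Nat.le_induction with
  | base =>
    have : arc Z i (i + 1) = Z i := by
      ext x
      constructor
      · rintro ⟨k, h1, h2, hx⟩
        have : k = i := by omega
        rw [← this]; exact hx
      · intro hx; exact ⟨i, le_refl _, Nat.lt_succ_self _, hx⟩
    rw [Nat.succ_eq_add_one, this]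
    exact hb.con i (by omega)
  | succ j hij ih =>
    have : arc Z i (j + 1) = arc Z i j ∪ Z j := by
      ext x
      constructor
      · rintro ⟨k, h1, h2, hx⟩
        by_cases hk : k = j
        · right; rw [← hk]; exact hx
        · left; exact ⟨k, h1, by omega, hx⟩
      · rintro (⟨k, h1, h2, hx⟩ | hx)
        · exact ⟨k, h1, by omega, hx⟩
        · exact ⟨j, by omega, Nat.lt_succ_self _, hx⟩
    rw [this]
    apply (ih (by omega)).union (hb.con j (by omega))
    have h1 := hb.adj (j - 1) (by omega)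
    rw [show j - 1 + 1 = j by omega] at h1
    exact h1.mono (sub_arc (by omega) (by omega)) (Set.Subset.refl _)

lemma arc_adj (hb : Bags G C m v Z) {i j k : ℕ} (hij : i < j) (hjk : j < k) (hk : k ≤ m + 1) :
    E G (arc Z i j) (arc Z j k) := by
  have h1 := hb.adj (j - 1) (by omega)
  rw [show j - 1 + 1 = j by omega] at h1
  exact h1.mono (sub_arc (by omega) (by omega)) (sub_arc (le_refl _) hjk)

lemma arc_disj (hb : Bags G C m v Z) {i j k l : ℕ} (hjk : j ≤ k) (hl : l ≤ m + 1) :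
    Disjoint (arc Z i j) (arc Z k l) := by
  rw [Set.disjoint_left]
  rintro x ⟨a, h1, h2, hx⟩ ⟨b, h3, h4, hx'⟩
  exact Set.disjoint_left.1 (hb.disj a (by omega) b (by omega) (by omega)) hx hx'

/-- the arc from `k` through the end to `i` -/
def wrap (Z : ℕ → Set V) (m k i : ℕ) : Set V := arc Z k (m + 1) ∪ arc Z 0 i

lemma wrap_con (hb : Bags G C m v Z) {k i : ℕ} (hk : k ≤ m) (hik : i ≤ k) :
    Con G (wrap Z m k i) := by
  unfold wrap
  rcases Nat.eq_zero_or_pos i with h | h
  · subst h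
    have : arc Z 0 0 = ∅ := by
      ext x; constructor
      · rintro ⟨a, h1, h2, -⟩; omega
      · intro h; exact absurd h (Set.notMem_empty x)
    rw [this, Set.union_empty]
    exact arc_con hb (by omega) (le_refl _)
  · refine (arc_con hb (by omega) (le_refl _)).union (arc_con hb h (by omega)) ?_
    exact (hb.cyc (by omega)).mono (sub_arc (by omega) (by omega)) (sub_arc (by omega) h)

lemma wrap_adj_left (hb : Bags G C m v Z) {j k i : ℕ} (hjk : j < k) (hk : k ≤ m) :
    E G (arc Z j k) (wrap Z m k i) :=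
  (arc_adj hb hjk (by omega) (le_refl (m + 1))).mono (Set.Subset.refl _) Set.subset_union_left

lemma wrap_adj_right (hb : Bags G C m v Z) {i j k : ℕ} (hij : i < j) (hj : j ≤ k) (hk : k ≤ m) :
    E G (wrap Z m k i) (arc Z i j) := by
  rcases Nat.eq_zero_or_pos i with h | h
  · subst h
    exact (hb.cyc (by omega)).mono ((sub_arc hk (by omega)).trans Set.subset_union_left)
      (sub_arc (le_refl _) hij)
  · exact (arc_adj hb h hij (by omega)).mono Set.subset_union_right (Set.Subset.refl _)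

lemma wrap_disj (hb : Bags G C m v Z) {a b k i : ℕ} (hia : i ≤ a) (hbk : b ≤ k)
    (hk : k ≤ m + 1) : Disjoint (arc Z a b) (wrap Z m k i) := by
  unfold wrap
  rw [Set.disjoint_union_right]
  exact ⟨arc_disj hb hbk (le_refl _), (arc_disj hb hia (by omega)).symm⟩

/-- a set avoiding all bags -/
def Off (Z : ℕ → Set V) (m : ℕ) (S : Set V) : Prop := ∀ i ≤ m, Disjoint S (Z i)

lemma Off.arc {S : Set V} (h : Off Z m S) {i j : ℕ} (hj : j ≤ m + 1) : Disjoint S (arc Z i j) := by
  rw [Set.disjoint_left]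
  rintro x hx ⟨k, h1, h2, hx'⟩
  exact Set.disjoint_left.1 (h k (by omega)) hx hx'

lemma Off.wrap {S : Set V} (h : Off Z m S) {k i : ℕ} (hi : i ≤ m + 1) :
    Disjoint S (wrap Z m k i) := by
  unfold Pool.Agent.Q296.CBU.wrap
  rw [Set.disjoint_union_right]
  exact ⟨h.arc (le_refl _), h.arc hi⟩

/-- three attachments give a `K₄` minor -/
lemma three_att (hb : Bags G C m v Z) {S : Set V} (hS : Con G S) (hoff : Off Z m S) {i j k : ℕ}
    (hij : i < j) (hjk : j < k) (hk : k ≤ m) (h1 : E G S (Z i)) (h2 : E G S (Z j))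
    (h3 : E G S (Z k)) : K4M G := by
  refine ⟨S, arc Z i j, arc Z j k, wrap Z m k i,
    ⟨hS, arc_con hb hij (by omega), arc_con hb hjk (by omega), wrap_con hb hk (by omega)⟩,
    ⟨hoff.arc (by omega), hoff.arc (by omega), hoff.wrap (by omega), arc_disj hb (le_refl _)
      (by omega), wrap_disj hb (le_refl _) (by omega) (by omega),
      wrap_disj hb (by omega) (le_refl _) (by omega)⟩,
    h1.mono (Set.Subset.refl _) (sub_arc (le_refl _) hij),
    h2.mono (Set.Subset.refl _) (sub_arc (le_refl _) hjk),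
    h3.mono (Set.Subset.refl _) ((sub_arc (le_refl _) (by omega)).trans Set.subset_union_left),
    arc_adj hb hij hjk (by omega), (wrap_adj_right hb hij (by omega) hk).symm,
    wrap_adj_left hb hjk hk⟩

/-- crossing attachments give a `K₄` minor -/
lemma crossing (hb : Bags G C m v Z) {S T : Set V} (hS : Con G S) (hT : Con G T)
    (hST : Disjoint S T) (hoS : Off Z m S) (hoT : Off Z m T) {a b c d : ℕ}
    (hab : a < b) (hbc : b < c) (hcd : c < d) (hd : d ≤ m) (h1 : E G S (Z a)) (h2 : E G S (Z c))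
    (h3 : E G T (Z b)) (h4 : E G T (Z d)) : K4M G := by
  refine ⟨S ∪ arc Z a b, T ∪ arc Z b c, arc Z c d, wrap Z m d a,
    ⟨hS.union (arc_con hb hab (by omega)) (h1.mono (Set.Subset.refl _) (sub_arc (le_refl _) hab)),
      hT.union (arc_con hb hbc (by omega)) (h3.mono (Set.Subset.refl _) (sub_arc (le_refl _) hbc)),
      arc_con hb hcd (by omega), wrap_con hb hd (by omega)⟩, ⟨?_, ?_, ?_, ?_, ?_, ?_⟩,
    ?_, ?_, ?_, ?_, ?_, ?_⟩
  · rw [Set.disjoint_union_left, Set.disjoint_union_right, Set.disjoint_union_right]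
    exact ⟨⟨hST, hoS.arc (by omega)⟩, (hoT.arc (by omega)).symm, arc_disj hb (le_refl _) (by omega)⟩
  · rw [Set.disjoint_union_left]
    exact ⟨hoS.arc (by omega), arc_disj hb (by omega) (by omega)⟩
  · rw [Set.disjoint_union_left]
    exact ⟨hoS.wrap (by omega), wrap_disj hb (le_refl _) (by omega) (by omega)⟩
  · rw [Set.disjoint_union_left]
    exact ⟨hoT.arc (by omega), arc_disj hb (le_refl _) (by omega)⟩
  · rw [Set.disjoint_union_left]
    exact ⟨hoT.wrap (by omega), wrap_disj hb (by omega) (by omega) (by omega)⟩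
  · exact wrap_disj hb (by omega) (le_refl _) (by omega)
  · exact (arc_adj hb hab hbc (by omega)).mono Set.subset_union_right Set.subset_union_right
  · exact h2.mono Set.subset_union_left (sub_arc (le_refl _) hcd)
  · exact (wrap_adj_right hb hab (by omega) hd).symm.mono Set.subset_union_right
      (Set.Subset.refl _)
  · exact (arc_adj hb hbc hcd (by omega)).mono Set.subset_union_right (Set.Subset.refl _)
  · exact h4.mono Set.subset_union_left
      ((sub_arc (le_refl _) (by omega)).trans Set.subset_union_left)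
  · exact wrap_adj_left hb hcd hd

end

open scoped Classical in
/-- the component of `c` in `G[C]` -/
noncomputable def comp (G : SimpleGraph V) (C : Finset V) (c : V) : Finset V :=
  C.filter (fun x => (res G (C : Set V)).Reachable c x)

section

variable {G : SimpleGraph V} {C : Finset V} {c : V}

lemma mem_comp {x : V} : x ∈ comp G C c ↔ x ∈ C ∧ (res G (C : Set V)).Reachable c x := by
  classical
  unfold comp; rw [mem_filter]

lemma comp_sub : comp G C c ⊆ C := fun _ hx => (mem_comp.1 hx).1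

lemma self_mem_comp (hc : c ∈ C) : c ∈ comp G C c := mem_comp.2 ⟨hc, SimpleGraph.Reachable.refl c⟩

lemma comp_closed {x y : V} (hx : x ∈ comp G C c) (hy : y ∈ C) (h : G.Adj x y) :
    y ∈ comp G C c := by
  rw [mem_comp] at hx ⊢
  refine ⟨hy, hx.2.trans (SimpleGraph.Adj.reachable ⟨h, hx.1, hy⟩)⟩

lemma comp_con (hc : c ∈ C) : Con G (comp G C c : Set V) := by
  have key : ∀ x y : V, ∀ p : (res G (C : Set V)).Walk x y, x ∈ comp G C c →
      (res G (comp G C c : Set V)).Reachable x y := by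
    intro x y p
    induction p with
    | nil => intro _; exact SimpleGraph.Reachable.refl _
    | cons h p ih =>
      intro hx
      have hy := comp_closed hx h.2.2 h.1
      exact (SimpleGraph.Adj.reachable (G := res G (comp G C c : Set V)) ⟨h.1, hx, hy⟩).trans (ih hy)
  refine ⟨⟨c, self_mem_comp hc⟩, fun x hx y hy => ?_⟩
  have h1 : x ∈ comp G C c := hx
  have h2 : y ∈ comp G C c := hy
  have h3 := (mem_comp.1 h1).2.symm.trans (mem_comp.1 h2).2
  obtain ⟨p⟩ := h3
  exact key x y p h1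

lemma comp_disj {c' : V} (hc' : c' ∉ comp G C c) :
    Disjoint (comp G C c : Set V) (comp G C c' : Set V) := by
  rw [Set.disjoint_left]
  intro x hx hx'
  have h1 : x ∈ comp G C c := hx
  have h2 : x ∈ comp G C c' := hx'
  apply hc'
  have h3 := (mem_comp.1 h1).2.trans (mem_comp.1 h2).2.symm
  by_cases hcC : c' ∈ C
  · exact mem_comp.2 ⟨hcC, h3⟩
  · -- then `c'` is isolated in `res`, so `x = c'`
    exfalso
    have h4 := (mem_comp.1 h2).2
    obtain ⟨p⟩ := h4
    cases p with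
    | nil => exact hcC (mem_comp.1 h2).1
    | cons h q => exact hcC h.2.1

end

/-- edges with an end in `K` and both ends in `K ∪ {s,t}` -/
def thr (G : SimpleGraph V) (K : Finset V) (s t : V) : SimpleGraph V where
  Adj x y := G.Adj x y ∧ ((x ∈ K ∧ (y ∈ K ∨ y = s ∨ y = t)) ∨ (y ∈ K ∧ (x ∈ K ∨ x = s ∨ x = t)))
  symm := ⟨fun _ _ h => ⟨h.1.symm, h.2.symm⟩⟩
  loopless := ⟨fun x h => G.loopless.irrefl x h.1⟩

/-- a shortest path through `K` -/
lemma shortest {G : SimpleGraph V} {K : Finset V} {s t : V} (hs : s ∉ K) (ht : t ∉ K)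
    (hst : s ≠ t) (hK : Con G (K : Set V)) (hsK : ∃ x ∈ K, G.Adj x s) (htK : ∃ x ∈ K, G.Adj x t) :
    ∃ (n : ℕ) (u : ℕ → V), 2 ≤ n ∧ u 0 = s ∧ u n = t ∧ (∀ a, 0 < a → a < n → u a ∈ K) ∧
      (∀ a, a < n → G.Adj (u a) (u (a + 1))) ∧
      (∀ a b, a ≤ n → b ≤ n → u a = u b → a = b) ∧
      (∀ a b, 0 < a → a < n → b ≤ n → G.Adj (u a) (u b) → a = b + 1 ∨ b = a + 1) ∧
      (∀ c ∈ K, ∀ a b, a ≤ n → b ≤ n → G.Adj c (u a) → G.Adj c (u b) → b ≤ a + 2) ∧
      (∀ c ∈ K, ∀ c' ∈ K, G.Adj c c' → ∀ a b, a ≤ n → b ≤ n → G.Adj c (u a) → G.Adj c' (u b) →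
        b ≤ a + 3 ∧ a ≤ b + 3) := by
  obtain ⟨H, hH⟩ : ∃ H, H = thr G K s t := ⟨_, rfl⟩
  have hHadj : ∀ x y, H.Adj x y ↔ G.Adj x y ∧
      ((x ∈ K ∧ (y ∈ K ∨ y = s ∨ y = t)) ∨ (y ∈ K ∧ (x ∈ K ∨ x = s ∨ x = t))) := by
    intro x y; rw [hH]; rfl
  -- reachability
  have hKH : ∀ x ∈ K, ∀ y ∈ K, H.Reachable x y := by
    intro x hx y hy
    have : res G (K : Set V) ≤ H := by
      intro a b hab
      rw [hHadj]
      exact ⟨hab.1, Or.inl ⟨hab.2.1, Or.inl hab.2.2⟩⟩
    exact (hK.2 x hx y hy).mono this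
  obtain ⟨x, hx, hxs⟩ := hsK
  obtain ⟨y, hy, hyt⟩ := htK
  have hsx : H.Reachable s x :=
    SimpleGraph.Adj.reachable ((hHadj s x).2 ⟨hxs.symm, Or.inr ⟨hx, Or.inr (Or.inl rfl)⟩⟩)
  have hyt' : H.Reachable y t :=
    SimpleGraph.Adj.reachable ((hHadj y t).2 ⟨hyt, Or.inl ⟨hy, Or.inr (Or.inr rfl)⟩⟩)
  have hreach : H.Reachable s t := (hsx.trans (hKH x hx y hy)).trans hyt'
  obtain ⟨p, hp⟩ := hreach.exists_walk_length_eq_dist
  obtain ⟨n, hn⟩ : ∃ n, n = H.dist s t := ⟨_, rfl⟩
  rw [← hn] at hp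
  have hua : ∀ a, a ≤ n → H.Reachable s (p.getVert a) ∧ H.dist s (p.getVert a) = a := by
    intro a ha
    have h1 : H.dist s (p.getVert a) ≤ a := by
      have := SimpleGraph.dist_le (p.take a)
      rw [SimpleGraph.Walk.take_length] at this
      exact this.trans (min_le_left _ _)
    have h2 : H.dist (p.getVert a) t ≤ n - a := by
      have := SimpleGraph.dist_le (p.drop a)
      rw [SimpleGraph.Walk.drop_length, hp] at this
      exact this
    have h3 : H.Reachable s (p.getVert a) := ⟨p.take a⟩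
    have h4 := h3.dist_triangle_left t
    exact ⟨h3, by omega⟩
  have hstep : ∀ z w, H.Reachable s z → H.Adj z w → H.dist s w ≤ H.dist s z + 1 ∧
      H.Reachable s w := by
    intro z w hz hzw
    have h1 := hz.dist_triangle_left w
    have h2 : H.dist z w = 1 := SimpleGraph.dist_eq_one_iff_adj.2 hzw
    exact ⟨by omega, hz.trans (SimpleGraph.Adj.reachable hzw)⟩
  have hu0 : p.getVert 0 = s := p.getVert_zero
  have hun : p.getVert n = t := by rw [← hp]; exact p.getVert_length
  have hadj : ∀ a, a < n → H.Adj (p.getVert a) (p.getVert (a + 1)) := by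
    intro a ha
    exact p.adj_getVert_succ (by omega)
  have hinj : ∀ a b, a ≤ n → b ≤ n → p.getVert a = p.getVert b → a = b := by
    intro a b ha hb h
    rw [← (hua a ha).2, ← (hua b hb).2, h]
  have hK' : ∀ a, 0 < a → a < n → p.getVert a ∈ K := by
    intro a ha ha'
    have h1 := (hHadj _ _).1 (hadj a ha')
    have h2 : p.getVert a ≠ s := by
      intro h
      have := hinj a 0 ha'.le (Nat.zero_le _) (h.trans hu0.symm)
      omega
    have h3 : p.getVert a ≠ t := by
      intro h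
      have := hinj a n ha'.le (le_refl _) (h.trans hun.symm)
      omega
    rcases h1.2 with h | h
    · exact h.1
    · rcases h.2 with h | h | h
      · exact h
      · exact absurd h h2
      · exact absurd h h3
  have hn2 : 2 ≤ n := by
    by_contra hcon
    have h0 : n = 0 ∨ n = 1 := by omega
    rcases h0 with h0 | h0
    · apply hst
      exact hu0.symm.trans ((congrArg p.getVert h0.symm).trans hun)
    · have h1 := hadj 0 (by omega)
      have h2 : p.getVert (0 + 1) = t := (congrArg p.getVert (by omega : 0 + 1 = n)).trans hun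
      rw [h2, hu0, hHadj] at h1
      rcases h1.2 with h | h
      · exact hs h.1
      · exact ht h.1
  have hmem : ∀ a, a ≤ n → p.getVert a ∈ K ∨ p.getVert a = s ∨ p.getVert a = t := by
    intro a ha
    rcases Nat.eq_zero_or_pos a with h | h
    · right; left; rw [h]; exact hu0
    · rcases ha.lt_or_eq with h' | h'
      · left; exact hK' a h h'
      · right; right; rw [h']; exact hun
  refine ⟨n, p.getVert, hn2, hu0, hun, hK', fun a ha => ((hHadj _ _).1 (hadj a ha)).1, hinj,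
    ?_, ?_, ?_⟩
  · intro a b ha ha' hb hab
    have h1 : H.Adj (p.getVert a) (p.getVert b) :=
      (hHadj _ _).2 ⟨hab, Or.inl ⟨hK' a ha ha', hmem b hb⟩⟩
    have h2 := (hstep _ _ (hua a ha'.le).1 h1).1
    have h3 := (hstep _ _ (hua b hb).1 h1.symm).1
    rw [(hua a ha'.le).2, (hua b hb).2] at h2 h3
    have h4 : a ≠ b := by
      rintro rfl; exact G.loopless.irrefl _ hab
    omega
  · intro c hc a b ha hb hca hcb
    have h1 : H.Adj (p.getVert a) c := (hHadj _ _).2 ⟨hca.symm, Or.inr ⟨hc, hmem a ha⟩⟩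
    have h2 : H.Adj c (p.getVert b) := (hHadj _ _).2 ⟨hcb, Or.inl ⟨hc, hmem b hb⟩⟩
    have h3 := hstep _ _ (hua a ha).1 h1
    have h4 := hstep _ _ h3.2 h2
    rw [(hua a ha).2] at h3
    rw [(hua b hb).2] at h4
    omega
  · intro c hc c' hc' hcc a b ha hb hca hcb
    have h1 : H.Adj (p.getVert a) c := (hHadj _ _).2 ⟨hca.symm, Or.inr ⟨hc, hmem a ha⟩⟩
    have h2 : H.Adj c c' := (hHadj _ _).2 ⟨hcc, Or.inl ⟨hc, Or.inl hc'⟩⟩
    have h3 : H.Adj c' (p.getVert b) := (hHadj _ _).2 ⟨hcb, Or.inl ⟨hc', hmem b hb⟩⟩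
    have g1 := hstep _ _ (hua a ha).1 h1
    have g2 := hstep _ _ g1.2 h2
    have g3 := hstep _ _ g2.2 h3
    have f1 := hstep _ _ (hua b hb).1 h3.symm
    have f2 := hstep _ _ f1.2 h2.symm
    have f3 := hstep _ _ f2.2 h1.symm
    rw [(hua a ha).2] at g1 f3
    rw [(hua b hb).2] at g3 f1
    omega

/-- no cycles of length 3, 4, 5, 6 -/
structure NoShort (G : SimpleGraph V) : Prop where
  c3 : ∀ a b c, G.Adj a b → G.Adj b c → G.Adj c a → False
  c4 : ∀ a b c d, G.Adj a b → G.Adj b c → G.Adj c d → G.Adj d a → a ≠ c → b ≠ d → False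
  c5 : ∀ a b c d e, G.Adj a b → G.Adj b c → G.Adj c d → G.Adj d e → G.Adj e a →
    a ≠ c → a ≠ d → b ≠ d → b ≠ e → c ≠ e → False
  c6 : ∀ a b c d e f, G.Adj a b → G.Adj b c → G.Adj c d → G.Adj d e → G.Adj e f → G.Adj f a →
    a ≠ c → a ≠ d → a ≠ e → b ≠ d → b ≠ e → b ≠ f → c ≠ e → c ≠ f → d ≠ f → False

lemma noShort_of_girth {G : SimpleGraph V} (h : 7 ≤ G.egirth) : NoShort G := by
  rw [SimpleGraph.le_egirth] at h
  refine ⟨?_, ?_, ?_, ?_⟩
  · intro a b c h1 h2 h3
    have e1 := h1.ne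
    have e2 := h2.ne
    have e3 := h3.ne
    have := h a (.cons h1 (.cons h2 (.cons h3 .nil))) (by
      rw [SimpleGraph.Walk.cons_isCycle_iff]
      simp only [SimpleGraph.Walk.cons_isPath_iff, SimpleGraph.Walk.isPath_iff_eq_nil,
        SimpleGraph.Walk.support_cons, SimpleGraph.Walk.support_nil, List.mem_cons,
        List.not_mem_nil, SimpleGraph.Walk.edges_cons, SimpleGraph.Walk.edges_nil, Sym2.eq_iff]
      grind)
    simp at this
    norm_cast at this
  · intro a b c d h1 h2 h3 h4 n1 n2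
    have e1 := h1.ne
    have e2 := h2.ne
    have e3 := h3.ne
    have e4 := h4.ne
    have := h a (.cons h1 (.cons h2 (.cons h3 (.cons h4 .nil)))) (by
      rw [SimpleGraph.Walk.cons_isCycle_iff]
      simp only [SimpleGraph.Walk.cons_isPath_iff, SimpleGraph.Walk.isPath_iff_eq_nil,
        SimpleGraph.Walk.support_cons, SimpleGraph.Walk.support_nil, List.mem_cons,
        List.not_mem_nil, SimpleGraph.Walk.edges_cons, SimpleGraph.Walk.edges_nil, Sym2.eq_iff]
      grind)
    simp at this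
    norm_cast at this
  · intro a b c d e h1 h2 h3 h4 h5 n1 n2 n3 n4 n5
    have e1 := h1.ne
    have e2 := h2.ne
    have e3 := h3.ne
    have e4 := h4.ne
    have e5 := h5.ne
    have := h a (.cons h1 (.cons h2 (.cons h3 (.cons h4 (.cons h5 .nil))))) (by
      rw [SimpleGraph.Walk.cons_isCycle_iff]
      simp only [SimpleGraph.Walk.cons_isPath_iff, SimpleGraph.Walk.isPath_iff_eq_nil,
        SimpleGraph.Walk.support_cons, SimpleGraph.Walk.support_nil, List.mem_cons,
        List.not_mem_nil, SimpleGraph.Walk.edges_cons, SimpleGraph.Walk.edges_nil, Sym2.eq_iff]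
      grind)
    simp at this
    norm_cast at this
  · intro a b c d e f h1 h2 h3 h4 h5 h6 n1 n2 n3 n4 n5 n6 n7 n8 n9
    have e1 := h1.ne
    have e2 := h2.ne
    have e3 := h3.ne
    have e4 := h4.ne
    have e5 := h5.ne
    have e6 := h6.ne
    have := h a (.cons h1 (.cons h2 (.cons h3 (.cons h4 (.cons h5 (.cons h6 .nil)))))) (by
      rw [SimpleGraph.Walk.cons_isCycle_iff]
      simp only [SimpleGraph.Walk.cons_isPath_iff, SimpleGraph.Walk.isPath_iff_eq_nil,
        SimpleGraph.Walk.support_cons, SimpleGraph.Walk.support_nil, List.mem_cons,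
        List.not_mem_nil, SimpleGraph.Walk.edges_cons, SimpleGraph.Walk.edges_nil, Sym2.eq_iff]
      grind)
    simp at this
    norm_cast at this

end Pool.Agent.Q296.CBU
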