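import Pool.Agent.Q296.CBU.Geo
import Pool.Agent.Q296.CBU.Graph

/-! The main induction. -/

set_option autoImplicit false

namespace Pool.Agent.Q296.CBU

open Finset

variable {V : Type*} [DecidableEq V]

/-- a partially drawn graph: `X` is drawn, `C` is to be drawn, `v 0, …, v m` are visible in this
order from below -/
structure St (G : SimpleGraph V) (X C : Finset V) (R : V → Rect) (m : ℕ) (v : ℕ → V)
    (α β : ℕ → ℝ) (Z : ℕ → Set V) : Prop where
  valid : Valid G X R
  disj : ∀ c ∈ C, c ∉ X
  vis : ∀ i ≤ m, Vis X R (v i) (α i) (β i)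
  ord : ∀ i < m, β i ≤ α (i + 1)
  inj : ∀ i ≤ m, ∀ j ≤ m, v i = v j → i = j
  att : ∀ c ∈ C, ∀ x ∈ X, G.Adj c x → ∃ i ≤ m, x = v i
  ha : ∀ c ∈ C, ∀ i ≤ m, ∀ j ≤ m, G.Adj c (v i) → G.Adj c (v j) → i = j
  hb : ∀ c ∈ C, ∀ c' ∈ C, G.Adj c c' → ∀ i ≤ m, ∀ j ≤ m, G.Adj c (v i) → G.Adj c' (v j) → i = j
  bags : Bags G C m v Z

/-- the drawing extends to `C` inside the strip -/
def Ext (G : SimpleGraph V) (X C : Finset V) (R : V → Rect) (lo hi : ℝ) : Prop :=
  ∃ R' : V → Rect, (∀ x ∈ X, R' x = R x) ∧ Valid G (X ∪ C) R' ∧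
    ∀ c ∈ C, lo < (R' c).b ∧ (R' c).t < hi

lemma Ext.mono {G : SimpleGraph V} {X C : Finset V} {R : V → Rect} {lo hi lo' hi' : ℝ}
    (h : Ext G X C R lo hi) (h1 : lo' ≤ lo) (h2 : hi ≤ hi') : Ext G X C R lo' hi' := by
  obtain ⟨R', a1, a2, a3⟩ := h
  exact ⟨R', a1, a2, fun c hc => ⟨lt_of_le_of_lt h1 (a3 c hc).1, lt_of_lt_of_le (a3 c hc).2 h2⟩⟩

lemma Ext.comb {G : SimpleGraph V} {X C K : Finset V} {R R2 : V → Rect} {lo hi : ℝ}
    (hK : K ⊆ C) (hR2 : ∀ x ∈ X, R2 x = R x) (hb : ∀ y ∈ K, lo < (R2 y).b ∧ (R2 y).t < hi)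
    (h : Ext G (X ∪ K) (C \ K) R2 lo hi) : Ext G X C R lo hi := by
  obtain ⟨R', a1, a2, a3⟩ := h
  refine ⟨R', fun x hx => ?_, ?_, fun c hc => ?_⟩
  · rw [a1 x (mem_union_left _ hx), hR2 x hx]
  · rwa [Finset.union_assoc, Finset.union_sdiff_of_subset hK] at a2
  · by_cases hcK : c ∈ K
    · rw [a1 c (mem_union_right _ hcK)]; exact hb c hcK
    · exact a3 c (mem_sdiff.2 ⟨hc, hcK⟩)

omit [DecidableEq V] in
lemma St.lt {G : SimpleGraph V} {X C : Finset V} {R : V → Rect} {m : ℕ} {v : ℕ → V}
    {α β : ℕ → ℝ} {Z : ℕ → Set V} (st : St G X C R m v α β Z) {i j : ℕ} (hij : i < j)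
    (hj : j ≤ m) : β i ≤ α j := by
  induction j, hij using Nat.le_induction with
  | base => exact st.ord i (by omega)
  | succ j hij ih =>
    have h1 := ih (by omega)
    have h2 := (st.vis j (by omega)).2.1
    have h3 := st.ord j (by omega)
    linarith

lemma St.lo {G : SimpleGraph V} {X C : Finset V} {R : V → Rect} {m : ℕ} {v : ℕ → V}
    {α β : ℕ → ℝ} {Z : ℕ → Set V} (st : St G X C R m v α β Z) {i : ℕ} (hi : i ≤ m) :
    α 0 ≤ α i := by
  rcases Nat.eq_zero_or_pos i with h | h
  · rw [h]
  · have h1 := st.lt h hi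
    have h2 := (st.vis 0 (Nat.zero_le _)).2.1
    linarith

lemma St.hi {G : SimpleGraph V} {X C : Finset V} {R : V → Rect} {m : ℕ} {v : ℕ → V}
    {α β : ℕ → ℝ} {Z : ℕ → Set V} (st : St G X C R m v α β Z) {i : ℕ} (hi : i ≤ m) :
    β i ≤ β m := by
  rcases hi.lt_or_eq with h | h
  · have h1 := st.lt h (le_refl _)
    have h2 := (st.vis m (le_refl _)).2.1
    linarith
  · rw [h]

/-- the state after drawing a component and passing to a sublist -/
lemma outer {G : SimpleGraph V} {X C : Finset V} {R : V → Rect} {m : ℕ} {v : ℕ → V}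
    {α β : ℕ → ℝ} {Z : ℕ → Set V} (st : St G X C R m v α β Z) {c : V}
    {R2 : V → Rect} (hV2 : Valid G (X ∪ comp G C c) R2)
    {m' : ℕ} {f : ℕ → ℕ} (hf : ∀ k ≤ m', f k ≤ m) (hfi : ∀ k ≤ m', ∀ k' ≤ m', f k = f k' → k = k')
    {α' β' : ℕ → ℝ} (hvis : ∀ k ≤ m', Vis (X ∪ comp G C c) R2 (v (f k)) (α' k) (β' k))
    (hord : ∀ k < m', β' k ≤ α' (k + 1))
    (hatt : ∀ x ∈ C \ comp G C c, ∀ l ≤ m, G.Adj x (v l) → ∃ k ≤ m', f k = l)
    {Z' : ℕ → Set V} (hbags : Bags G (C \ comp G C c) m' (fun k => v (f k)) Z') :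
    St G (X ∪ comp G C c) (C \ comp G C c) R2 m' (fun k => v (f k)) α' β' Z' := by
  refine ⟨hV2, ?_, hvis, hord, ?_, ?_, ?_, ?_, hbags⟩
  · intro x hx hx'
    rw [mem_sdiff] at hx
    rw [mem_union] at hx'
    rcases hx' with h | h
    · exact st.disj x hx.1 h
    · exact hx.2 h
  · intro i hi j hj h
    exact hfi i hi j hj (st.inj _ (hf i hi) _ (hf j hj) h)
  · intro x hx y hy hxy
    have hx' := mem_sdiff.1 hx
    rw [mem_union] at hy
    rcases hy with h | h
    · obtain ⟨l, hl, hyl⟩ := st.att x hx'.1 y h hxy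
      obtain ⟨k, hk, hfk⟩ := hatt x hx l hl (hyl ▸ hxy)
      exact ⟨k, hk, by rw [hyl, hfk]⟩
    · exact absurd (comp_closed h hx'.1 hxy.symm) hx'.2
  · intro x hx i hi j hj h1 h2
    exact hfi i hi j hj (st.ha x (mem_sdiff.1 hx).1 _ (hf i hi) _ (hf j hj) h1 h2)
  · intro x hx y hy hxy i hi j hj h1 h2
    exact hfi i hi j hj (st.hb x (mem_sdiff.1 hx).1 y (mem_sdiff.1 hy).1 hxy _ (hf i hi) _
      (hf j hj) h1 h2)

/-- finishing after a component has been drawn inside the interval of `v i` -/
lemma finish1 {G : SimpleGraph V} {X C : Finset V} {R : V → Rect} {m : ℕ} {v : ℕ → V}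
    {α β : ℕ → ℝ} {Z : ℕ → Set V} (st : St G X C R m v α β Z)
    (IH : ∀ (X' C' : Finset V) (R' : V → Rect) (m' : ℕ) (v' : ℕ → V) (α' β' : ℕ → ℝ)
      (Z' : ℕ → Set V), C'.card < C.card → St G X' C' R' m' v' α' β' Z' →
      Ext G X' C' R' (α' 0) (β' m'))
    {c : V} (hc : c ∈ C) {i : ℕ} (hi : i ≤ m) {μ : ℝ} (h1 : α i < μ) (h2 : μ < β i)
    {R2 : V → Rect} (hR2 : ∀ x ∈ X, R2 x = R x) (hV2 : Valid G (X ∪ comp G C c) R2)
    (hb : ∀ y ∈ comp G C c, α i < (R2 y).b ∧ (R2 y).t ≤ μ) : Ext G X C R (α 0) (β m) := by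
  obtain ⟨α', hα'⟩ : ∃ α' : ℕ → ℝ, α' = Function.update α i μ := ⟨_, rfl⟩
  have e1 : α' i = μ := by rw [hα', Function.update_self]
  have e2 : ∀ k, k ≠ i → α' k = α k := by
    intro k hk; rw [hα', Function.update_of_ne hk]
  have hge : ∀ k, α k ≤ α' k := by
    intro k
    by_cases hk : k = i
    · rw [hk, e1]; exact h1.le
    · rw [e2 k hk]
  have st2 := outer st (c := c) hV2 (m' := m) (f := id) (fun k hk => hk) (fun k _ k' _ h => h)
    (α' := α') (β' := β) (by
      intro k hk
      have hvk := st.vis k hk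
      simp only [id]
      rcases lt_trichotomy k i with h | h | h
      · rw [e2 k (ne_of_lt h)]
        apply vis_extend hvk hR2
        intro y hy
        right
        have g1 := st.lt h hi
        have g2 := (hb y hy).1
        linarith
      · subst h
        rw [e1]
        apply vis_extend (hvk.sub h1.le h2 (le_refl _)) hR2
        intro y hy
        left
        exact (hb y hy).2
      · rw [e2 k (ne_of_gt h)]
        apply vis_extend hvk hR2
        intro y hy
        left
        have g1 := st.lt h hk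
        have g2 := (hb y hy).2
        linarith) (fun k hk => (st.ord k hk).trans (hge _))
    (fun x _ l hl _ => ⟨l, hl, rfl⟩) (Z' := Z)
    ⟨st.bags.con, st.bags.mem, st.bags.disj,
      fun i hi c hc => st.bags.out i hi c (mem_sdiff.1 hc).1, st.bags.adj, st.bags.cyc⟩
  have hcard : (C \ comp G C c).card < C.card :=
    Finset.card_lt_card (Finset.sdiff_ssubset comp_sub ⟨c, self_mem_comp hc⟩)
  have h3 := IH _ _ _ _ _ _ _ _ hcard st2
  refine Ext.comb comp_sub hR2 (fun y hy => ?_) (h3.mono (hge 0) (le_refl _))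
  have g1 := st.lo hi
  have g2 := st.hi hi
  have g3 := hb y hy
  exact ⟨by linarith [g3.1], by linarith [g3.2]⟩

/-- the main induction -/
theorem claim {G : SimpleGraph V} (hK4 : ¬ K4M G) (hS : NoShort G) : ∀ (N : ℕ) (X C : Finset V)
    (R : V → Rect) (m : ℕ) (v : ℕ → V) (α β : ℕ → ℝ) (Z : ℕ → Set V), C.card = N →
    St G X C R m v α β Z → Ext G X C R (α 0) (β m) := by
  intro N
  induction N using Nat.strong_induction_on with
  | _ N ih =>
  intro X C R m v α β Z hN st
  have IH : ∀ (X' C' : Finset V) (R' : V → Rect) (m' : ℕ) (v' : ℕ → V) (α' β' : ℕ → ℝ)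
      (Z' : ℕ → Set V), C'.card < C.card → St G X' C' R' m' v' α' β' Z' →
      Ext G X' C' R' (α' 0) (β' m') := by
    intro X' C' R' m' v' α' β' Z' hlt hst
    exact ih C'.card (hN ▸ hlt) X' C' R' m' v' α' β' Z' rfl hst
  by_cases hCe : C = ∅
  · subst hCe
    exact ⟨R, fun x _ => rfl, by rw [Finset.union_empty]; exact st.valid,
      fun c hc => absurd hc (Finset.notMem_empty c)⟩
  have hCne := Finset.nonempty_iff_ne_empty.2 hCe
  -- attachments
  obtain ⟨At, hAt⟩ : ∃ At : V → ℕ → Prop, At = fun c l => ∃ x ∈ comp G C c, G.Adj x (v l) :=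
    ⟨_, rfl⟩
  have hoff : ∀ c, Off Z m (comp G C c : Set V) := by
    intro c i hi
    rw [Set.disjoint_left]
    intro x hx hx'
    exact st.bags.out i hi x (comp_sub hx) hx'
  have hAE : ∀ c l, l ≤ m → At c l → E G (comp G C c : Set V) (Z l) := by
    intro c l hl h
    rw [hAt] at h
    obtain ⟨x, hx, hxl⟩ := h
    exact ⟨x, hx, v l, st.bags.mem l hl, hxl⟩
  -- every component has at most two attachments
  have hthree : ∀ c ∈ C, ∀ i j l, i < j → j < l → l ≤ m → At c i → At c j → At c l → False := by
    intro c hc i j l hij hjl hl h1 h2 h3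
    exact hK4 (three_att st.bags (comp_con hc) (hoff c) hij hjl hl (hAE c i (by omega) h1)
      (hAE c j (by omega) h2) (hAE c l hl h3))
  by_cases hc1 : ∃ c ∈ C, ∀ l ≤ m, ¬ At c l
  · -- Case 1
    obtain ⟨c, hc, hno⟩ := hc1
    have hcX := st.disj c hc
    obtain ⟨μ, hμ1, hμ2⟩ := exists_between (st.vis 0 (Nat.zero_le _)).2.1
    obtain ⟨t, ht1, ht2⟩ := exists_between hμ1
    obtain ⟨b, hb1, hb2⟩ := exists_between ht1
    have hnoX : ∀ x ∈ comp G C c, ∀ y ∈ X, ¬ G.Adj x y := by
      intro x hx y hy hxy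
      obtain ⟨l, hl, hyl⟩ := st.att x (comp_sub hx) y hy hxy
      apply hno l hl
      rw [hAt]
      exact ⟨x, hx, hyl ▸ hxy⟩
    obtain ⟨q, hq1, hq2, V1, W1⟩ := iso st.valid hcX (hnoX c (self_mem_comp hc)) hb2
    have st1 : St G (insert c X) ((comp G C c).erase c) (Function.update R c q) 0 (fun _ => c)
        (fun _ => b) (fun _ => t) (fun _ => {c}) := by
      refine ⟨V1, ?_, fun i _ => W1, fun i hi => by omega, fun i hi j hj _ => by omega, ?_,
        fun x _ i hi j hj _ _ => by omega, fun x _ y _ _ i hi j hj _ _ => by omega,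
        ⟨fun i _ => con_single G c, fun i _ => rfl, fun i hi j hj hij => by omega, ?_,
          fun i hi => by omega, fun h => by omega⟩⟩
      · intro x hx hx'
        rw [mem_erase] at hx
        rw [mem_insert] at hx'
        rcases hx' with h | h
        · exact hx.1 h
        · exact st.disj x (comp_sub hx.2) h
      · intro x hx y hy hxy
        rw [mem_erase] at hx
        rw [mem_insert] at hy
        rcases hy with h | h
        · exact ⟨0, le_refl _, h⟩
        · exact absurd hxy (hnoX x hx.2 y h)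
      · intro i _ x hx hx'
        rw [mem_erase] at hx
        exact hx.1 hx'
    have hcard : ((comp G C c).erase c).card < C.card :=
      lt_of_lt_of_le (Finset.card_erase_lt_of_mem (self_mem_comp hc)) (card_le_card comp_sub)
    obtain ⟨R2, g1, g2, g3⟩ := IH _ _ _ _ _ _ _ _ hcard st1
    have hset : insert c X ∪ (comp G C c).erase c = X ∪ comp G C c := by
      ext x
      rw [mem_union, mem_insert, mem_erase, mem_union]
      constructor
      · rintro ((rfl | h) | h)
        · exact Or.inr (self_mem_comp hc)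
        · exact Or.inl h
        · exact Or.inr h.2
      · rintro (h | h)
        · exact Or.inl (Or.inr h)
        · by_cases hxc : x = c
          · exact Or.inl (Or.inl hxc)
          · exact Or.inr ⟨hxc, h⟩
    rw [hset] at g2
    refine finish1 st IH hc (Nat.zero_le m) hμ1 hμ2 (R2 := R2) (fun x hx => ?_) g2
      (fun y hy => ?_)
    · rw [g1 x (mem_insert_of_mem hx), Function.update_of_ne]
      rintro rfl; exact hcX hx
    · by_cases hyc : y = c
      · subst hyc
        rw [g1 y (mem_insert_self _ _), Function.update_self, hq1, hq2]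
        exact ⟨hb1, ht2.le⟩
      · have := g3 y (mem_erase.2 ⟨hyc, hy⟩)
        exact ⟨by linarith [this.1], by linarith [this.2]⟩
  push Not at hc1
  by_cases hc2 : ∃ c ∈ C, ∃ i ≤ m, At c i ∧ ∀ l ≤ m, At c l → l = i
  · -- Case 2
    obtain ⟨c0, hc0, i, hi, hAi, honly⟩ := hc2
    rw [hAt] at hAi
    obtain ⟨w, hw, hwv⟩ := hAi
    have hcompw : comp G C w = comp G C c0 := by
      have h1 := (mem_comp.1 hw).2
      ext x
      rw [mem_comp, mem_comp]
      exact ⟨fun h => ⟨h.1, h1.trans h.2⟩, fun h => ⟨h.1, h1.symm.trans h.2⟩⟩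
    have hwC := comp_sub hw
    have hwX := st.disj w hwC
    have hnoX : ∀ x ∈ comp G C w, ∀ y ∈ X, G.Adj x y → y = v i := by
      intro x hx y hy hxy
      rw [hcompw] at hx
      obtain ⟨l, hl, hyl⟩ := st.att x (comp_sub hx) y hy hxy
      have : l = i := honly l hl (by rw [hAt]; exact ⟨x, hx, hyl ▸ hxy⟩)
      rw [hyl, this]
    have hvi := st.vis i hi
    obtain ⟨μ, hμ1, hμ2⟩ := exists_between hvi.2.1
    obtain ⟨t, ht1, ht2⟩ := exists_between hμ1
    obtain ⟨b, hb1, hb2⟩ := exists_between ht1
    obtain ⟨q, -, hq1, hq2, V1, W1, W2, -⟩ := pend st.valid hwX hvi (by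
      intro u hu
      constructor
      · intro h; exact hnoX w (self_mem_comp hwC) u hu h
      · rintro rfl; exact hwv) hb1 hb2 (by linarith) (x0 := (R (v i)).l - 1) (by linarith)
    have hviX : v i ∈ X := hvi.1
    have hwvi : w ≠ v i := by rintro h; exact hwX (h ▸ hviX)
    have st1 : St G (insert w X) ((comp G C w).erase w) (Function.update R w q) 1
        (fun k => if k = 0 then v i else w)
        (fun k => if k = 0 then α i else b) (fun k => if k = 0 then b else t)
        (fun k => if k = 0 then Z i else {w}) := by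
      refine ⟨V1, ?_, ?_, ?_, ?_, ?_, ?_, ?_, ⟨?_, ?_, ?_, ?_, ?_, ?_⟩⟩
      · intro x hx hx'
        rw [mem_erase] at hx
        rw [mem_insert] at hx'
        rcases hx' with h | h
        · exact hx.1 h
        · exact st.disj x (comp_sub hx.2) h
      · intro k hk
        have : k = 0 ∨ k = 1 := by omega
        rcases this with rfl | rfl
        · simpa using W2
        · simpa using W1
      · intro k hk
        have : k = 0 := by omega
        subst this; simp
      · intro k hk l hl h
        have h1 : k = 0 ∨ k = 1 := by omega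
        have h2 : l = 0 ∨ l = 1 := by omega
        rcases h1 with rfl | rfl <;> rcases h2 with rfl | rfl
        · rfl
        · simp only [if_true, one_ne_zero, if_false] at h
          exact absurd h.symm hwvi
        · simp only [if_true, one_ne_zero, if_false] at h
          exact absurd h hwvi
        · rfl
      · intro x hx y hy hxy
        rw [mem_erase] at hx
        rw [mem_insert] at hy
        rcases hy with h | h
        · exact ⟨1, le_refl _, by simp [h]⟩
        · exact ⟨0, by omega, by simp [hnoX x hx.2 y h hxy]⟩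
      · intro x _ k hk l hl h1 h2
        have e1 : k = 0 ∨ k = 1 := by omega
        have e2 : l = 0 ∨ l = 1 := by omega
        rcases e1 with rfl | rfl <;> rcases e2 with rfl | rfl
        · rfl
        · simp only [if_true, one_ne_zero, if_false] at h1 h2
          exact (hS.c3 x (v i) w h1 hwv.symm h2.symm).elim
        · simp only [if_true, one_ne_zero, if_false] at h1 h2
          exact (hS.c3 x (v i) w h2 hwv.symm h1.symm).elim
        · rfl
      · intro x hx y hy hxy k hk l hl h1 h2
        rw [mem_erase] at hx hy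
        have hxv : x ≠ v i := by
          rintro h; exact st.disj x (comp_sub hx.2) (h ▸ hviX)
        have hyv : y ≠ v i := by
          rintro h; exact st.disj y (comp_sub hy.2) (h ▸ hviX)
        have e1 : k = 0 ∨ k = 1 := by omega
        have e2 : l = 0 ∨ l = 1 := by omega
        rcases e1 with rfl | rfl <;> rcases e2 with rfl | rfl
        · rfl
        · simp only [if_true, one_ne_zero, if_false] at h1 h2
          exact (hS.c4 x (v i) w y h1 hwv.symm h2.symm hxy.symm hx.1 hyv.symm).elim
        · simp only [if_true, one_ne_zero, if_false] at h1 h2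
          exact (hS.c4 y (v i) w x h2 hwv.symm h1.symm hxy hy.1 hxv.symm).elim
        · rfl
      · intro k _
        by_cases hk : k = 0
        · simp only [hk, if_true]; exact st.bags.con i hi
        · simp only [hk, if_false]; exact con_single G w
      · intro k _
        by_cases hk : k = 0
        · simp only [hk, if_true]; exact st.bags.mem i hi
        · simp only [hk, if_false]; rfl
      · intro k hk l hl hkl
        have hwZ : w ∉ Z i := st.bags.out i hi w hwC
        have e1 : k = 0 ∨ k = 1 := by omega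
        have e2 : l = 0 ∨ l = 1 := by omega
        rcases e1 with rfl | rfl <;> rcases e2 with rfl | rfl
        · exact absurd rfl hkl
        · simp only [if_true, one_ne_zero, if_false]
          rw [Set.disjoint_singleton_right]; exact hwZ
        · simp only [if_true, one_ne_zero, if_false]
          rw [Set.disjoint_singleton_left]; exact hwZ
        · exact absurd rfl hkl
      · intro k _ x hx
        rw [mem_erase] at hx
        by_cases hk : k = 0
        · simp only [hk, if_true]; exact st.bags.out i hi x (comp_sub hx.2)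
        · simp only [hk, if_false]; exact hx.1
      · intro k hk
        have : k = 0 := by omega
        subst this
        simp only [if_true, zero_add, one_ne_zero, if_false]
        exact ⟨v i, st.bags.mem i hi, w, rfl, hwv.symm⟩
      · intro _
        simp only [if_true, one_ne_zero, if_false]
        exact ⟨w, rfl, v i, st.bags.mem i hi, hwv⟩
    have hcard : ((comp G C w).erase w).card < C.card :=
      lt_of_lt_of_le (Finset.card_erase_lt_of_mem (self_mem_comp hwC)) (card_le_card comp_sub)
    obtain ⟨R2, g1, g2, g3⟩ := IH _ _ _ _ _ _ _ _ hcard st1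
    have hset : insert w X ∪ (comp G C w).erase w = X ∪ comp G C w := by
      ext x
      rw [mem_union, mem_insert, mem_erase, mem_union]
      constructor
      · rintro ((rfl | h) | h)
        · exact Or.inr (self_mem_comp hwC)
        · exact Or.inl h
        · exact Or.inr h.2
      · rintro (h | h)
        · exact Or.inl (Or.inr h)
        · by_cases hxc : x = w
          · exact Or.inl (Or.inl hxc)
          · exact Or.inr ⟨hxc, h⟩
    rw [hset] at g2
    refine finish1 st IH hwC hi hμ1 hμ2 (R2 := R2) (fun x hx => ?_) g2 (fun y hy => ?_)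
    · rw [g1 x (mem_insert_of_mem hx), Function.update_of_ne]
      rintro rfl; exact hwX hx
    · by_cases hyc : y = w
      · subst hyc
        rw [g1 y (mem_insert_self _ _), Function.update_self, hq1, hq2]
        exact ⟨hb1, ht2.le⟩
      · have := g3 y (mem_erase.2 ⟨hyc, hy⟩)
        simp only [if_true, one_ne_zero, if_false] at this
        exact ⟨by linarith [this.1], by linarith [this.2]⟩
  -- Case 3: every component has exactly two attachments
  have htwo : ∀ c ∈ C, ∃ i j, i < j ∧ j ≤ m ∧ At c i ∧ At c j := by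
    intro c hc
    obtain ⟨i, hi, hAi⟩ := hc1 c hc
    by_contra hno
    push Not at hno
    apply hc2
    refine ⟨c, hc, i, hi, hAi, fun l hl hAl => ?_⟩
    rcases lt_trichotomy l i with h | h | h
    · exact absurd hAi (hno l i h hi hAl)
    · exact h
    · exact absurd hAl (hno i l h hl hAi)
  -- minimal gap
  obtain ⟨d, hd⟩ : ∃ d, (∃ c ∈ C, ∃ i j, i < j ∧ j ≤ m ∧ At c i ∧ At c j ∧ j - i = d) ∧
      ∀ d', (∃ c ∈ C, ∃ i j, i < j ∧ j ≤ m ∧ At c i ∧ At c j ∧ j - i = d') → d ≤ d' := by
    classical
    obtain ⟨c, hc⟩ := hCne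
    obtain ⟨i, j, h1, h2, h3, h4⟩ := htwo c hc
    have hex : ∃ d, ∃ c ∈ C, ∃ i j, i < j ∧ j ≤ m ∧ At c i ∧ At c j ∧ j - i = d :=
      ⟨j - i, c, hc, i, j, h1, h2, h3, h4, rfl⟩
    exact ⟨Nat.find hex, Nat.find_spec hex, fun d' h => Nat.find_min' hex h⟩
  obtain ⟨⟨c, hc, i, j, hij, hj, hAi, hAj, hd1⟩, hmin⟩ := hd
  have honly : ∀ l ≤ m, At c l → l = i ∨ l = j := by
    intro l hl hAl
    by_contra hno
    push Not at hno
    rcases lt_trichotomy l i with h | h | h
    · exact hthree c hc l i j h hij hj hAl hAi hAj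
    · exact hno.1 h
    · rcases lt_trichotomy l j with h' | h' | h'
      · exact hthree c hc i l j h h' hj hAi hAl hAj
      · exact hno.2 h'
      · exact hthree c hc i j l hij h' hl hAi hAj hAl
  -- nothing else attaches strictly between
  have hbetween : ∀ x ∈ C \ comp G C c, ∀ l, i < l → l < j → ¬ G.Adj x (v l) := by
    intro x hx l h1 h2 hadj
    rw [mem_sdiff] at hx
    have hAl : At x l := by rw [hAt]; exact ⟨x, self_mem_comp hx.1, hadj⟩
    obtain ⟨l', hl', hl'm, hAl'⟩ : ∃ l', l' ≠ l ∧ l' ≤ m ∧ At x l' := by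
      obtain ⟨a, b, hab, hb, hAa, hAb⟩ := htwo x hx.1
      by_cases h : a = l
      · exact ⟨b, by omega, hb, hAb⟩
      · exact ⟨a, h, by omega, hAa⟩
    have hout : l' < i ∨ j < l' := by
      by_contra hno
      push Not at hno
      rcases lt_or_gt_of_ne hl' with h | h
      · have := hmin (l - l') ⟨x, hx.1, l', l, h, by omega, hAl', hAl, rfl⟩
        omega
      · have := hmin (l' - l) ⟨x, hx.1, l, l', h, hl'm, hAl, hAl', rfl⟩
        omega
    have hdj := comp_disj hx.2
    rcases hout with h | h
    · exact hK4 (crossing st.bags (comp_con hx.1) (comp_con hc) hdj.symm (hoff x) (hoff c) h h1 h2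
        hj (hAE x l' hl'm hAl') (hAE x l (by omega) hAl) (hAE c i (by omega) hAi) (hAE c j hj hAj))
    · exact hK4 (crossing st.bags (comp_con hc) (comp_con hx.1) hdj (hoff c) (hoff x) h1 h2 h
        hl'm (hAE c i (by omega) hAi) (hAE c j hj hAj) (hAE x l (by omega) hAl)
        (hAE x l' hl'm hAl'))
  -- the ear
  have hvi := st.vis i (by omega)
  have hvj := st.vis j hj
  have hKX : ∀ x ∈ comp G C c, x ∉ X := fun x hx => st.disj x (comp_sub hx)
  have hsK : v i ∉ comp G C c := fun h => hKX _ h hvi.1
  have htK : v j ∉ comp G C c := fun h => hKX _ h hvj.1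
  have hst : v i ≠ v j := fun h => by
    have := st.inj i (by omega) j hj h
    omega
  obtain ⟨n, u, hn2, hu0, hun, huK, huadj, huinj, huchord, hu2, hu3⟩ :=
    shortest hsK htK hst (comp_con hc) (by rw [hAt] at hAi; exact hAi)
      (by rw [hAt] at hAj; exact hAj)
  have hn4 : 4 ≤ n := by
    by_contra hcon
    have : n = 2 ∨ n = 3 := by omega
    rcases this with h | h
    · subst h
      have h1 := huadj 0 (by norm_num)
      have h2 := huadj 1 (by norm_num)
      have h3 := huK 1 (by norm_num) (by norm_num)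
      rw [zero_add, hu0] at h1
      rw [show (1 + 1 : ℕ) = 2 by norm_num, hun] at h2
      have := st.ha (u 1) (comp_sub h3) i (by omega) j hj h1.symm h2
      omega
    · subst h
      have h1 := huadj 0 (by norm_num)
      have h2 := huadj 1 (by norm_num)
      have h3 := huadj 2 (by norm_num)
      rw [zero_add, hu0] at h1
      rw [show (1 + 1 : ℕ) = 2 by norm_num] at h2
      rw [show (2 + 1 : ℕ) = 3 by norm_num, hun] at h3
      have := st.hb (u 1) (comp_sub (huK 1 (by norm_num) (by norm_num))) (u 2)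
        (comp_sub (huK 2 (by norm_num) (by norm_num))) h2 i (by omega) j hj h1.symm h3
      omega
  obtain ⟨γ, hγ1, hγ2⟩ := exists_between hvi.2.1
  obtain ⟨δ, hδ1, hδ2⟩ := exists_between hvj.2.1
  have hij' := st.lt hij hj
  obtain ⟨R1, A, B, k1, k2, k3, k4, k5, k6, k7⟩ := ear (G := G) n hn4 X R u γ (β i) (α j) δ
    st.valid (by rw [hu0]; exact hvi.sub hγ1.le hγ2 (le_refl _))
    (by rw [hun]; exact hvj.sub (le_refl _) hδ1 hδ2.le) hij' (by rw [hu0, hun]; exact hst)
    (fun a ha ha' => hKX _ (huK a ha ha')) huinj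
    (by
      intro a b ha ha' hb hb'
      constructor
      · intro h; exact huchord a b ha ha' hb'.le h
      · rintro (h | h)
        · rw [h]; exact (huadj b hb').symm
        · rw [h]; exact huadj a ha')
    (by
      intro a ha ha' x hx
      constructor
      · intro h
        obtain ⟨l, hl, hxl⟩ := st.att (u a) (comp_sub (huK a ha ha')) x hx h
        have hAl : At c l := by rw [hAt]; exact ⟨u a, huK a ha ha', hxl ▸ h⟩
        rcases honly l hl hAl with h1 | h1
        · left
          have e : x = u 0 := by rw [hxl, h1, hu0]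
          refine ⟨e, ?_⟩
          have := huchord a 0 ha ha' (Nat.zero_le _) (e ▸ h)
          omega
        · right
          have e : x = u n := by rw [hxl, h1, hun]
          refine ⟨e, ?_⟩
          have := huchord a n ha ha' (le_refl _) (e ▸ h)
          omega
      · rintro (⟨rfl, h⟩ | ⟨rfl, h⟩)
        · have := huadj 0 (by omega)
          rw [h]
          exact this.symm
        · have := huadj a ha'
          rw [h] at this
          exact this)
  obtain ⟨Q, hQ⟩ : ∃ Q, Q = (Ioo 0 n).image u := ⟨_, rfl⟩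
  have memQ : ∀ x, x ∈ Q ↔ ∃ a, (0 < a ∧ a < n) ∧ u a = x := by
    intro x
    rw [hQ, mem_image]
    simp only [mem_Ioo]
  have hQK : Q ⊆ comp G C c := by
    intro x hx
    obtain ⟨a, ha, rfl⟩ := (memQ x).1 hx
    exact huK a ha.1 ha.2
  have hXQ : pathSet X n u = X ∪ Q := by rw [hQ]; rfl
  rw [hXQ] at k2 k3
  have hxu : ∀ x ∈ comp G C c \ Q, ∀ a, a ≤ n → x ≠ u a := by
    intro x hx a ha h
    rw [mem_sdiff] at hx
    rcases Nat.eq_zero_or_pos a with h0 | h0
    · rw [h0, hu0] at h; exact hsK (h ▸ hx.1)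
    · rcases ha.lt_or_eq with h1 | h1
      · exact hx.2 ((memQ x).2 ⟨a, ⟨h0, h1⟩, h.symm⟩)
      · rw [h1, hun] at h; exact htK (h ▸ hx.1)
  have hune : ∀ a b, a ≤ n → b ≤ n → a ≠ b → u a ≠ u b := fun a b ha hb hab h =>
    hab (huinj a b ha hb h)
  have hha : ∀ x ∈ comp G C c \ Q, ∀ a b, a ≤ n → b ≤ n → a < b → G.Adj x (u a) →
      G.Adj x (u b) → False := by
    intro x hx a b ha hb hab h1 h2
    have hx' := (mem_sdiff.1 hx).1
    have h3 := hu2 x hx' a b ha hb h1 h2
    have h4 : b = a + 1 ∨ b = a + 2 := by omega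
    rcases h4 with rfl | rfl
    · exact hS.c3 x (u a) (u (a + 1)) h1 (huadj a (by omega)) h2.symm
    · exact hS.c4 x (u a) (u (a + 1)) (u (a + 2)) h1 (huadj a (by omega))
        (huadj (a + 1) (by omega)) h2.symm (hxu x hx _ (by omega))
        (hune _ _ (by omega) (by omega) (by omega))
  have hhb : ∀ x ∈ comp G C c \ Q, ∀ y ∈ comp G C c \ Q, G.Adj x y → ∀ a b, a ≤ n → b ≤ n →
      a < b → G.Adj x (u a) → G.Adj y (u b) → False := by
    intro x hx y hy hxy a b ha hb hab h1 h2
    have hx' := (mem_sdiff.1 hx).1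
    have hy' := (mem_sdiff.1 hy).1
    have h3 := (hu3 x hx' y hy' hxy a b ha hb h1 h2).1
    have h4 : b = a + 1 ∨ b = a + 2 ∨ b = a + 3 := by omega
    rcases h4 with rfl | rfl | rfl
    · exact hS.c4 x (u a) (u (a + 1)) y h1 (huadj a (by omega)) h2.symm hxy.symm
        (hxu x hx _ (by omega)) (hxu y hy _ (by omega)).symm
    · exact hS.c5 x (u a) (u (a + 1)) (u (a + 2)) y h1 (huadj a (by omega))
        (huadj (a + 1) (by omega)) h2.symm hxy.symm (hxu x hx _ (by omega))
        (hxu x hx _ (by omega)) (hune _ _ (by omega) (by omega) (by omega))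
        (hxu y hy _ (by omega)).symm (hxu y hy _ (by omega)).symm
    · exact hS.c6 x (u a) (u (a + 1)) (u (a + 2)) (u (a + 3)) y h1 (huadj a (by omega))
        (huadj (a + 1) (by omega)) (huadj (a + 2) (by omega)) h2.symm hxy.symm
        (hxu x hx _ (by omega)) (hxu x hx _ (by omega)) (hxu x hx _ (by omega))
        (hune _ _ (by omega) (by omega) (by omega)) (hune _ _ (by omega) (by omega) (by omega))
        (hxu y hy _ (by omega)).symm (hune _ _ (by omega) (by omega) (by omega))
        (hxu y hy _ (by omega)).symm (hxu y hy _ (by omega)).symm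
  -- bags for the ear
  obtain ⟨Z1, hZ1⟩ : ∃ Z1 : ℕ → Set V, Z1 = fun a => if a = 0 then arc Z i j else
    if a = n then Z j else {u a} := ⟨_, rfl⟩
  have z0 : Z1 0 = arc Z i j := by rw [hZ1]; simp
  have zn : Z1 n = Z j := by
    rw [hZ1]
    simp only [if_true]
    rw [if_neg (by omega)]
  have za : ∀ a, a ≠ 0 → a ≠ n → Z1 a = {u a} := by
    intro a h1 h2
    rw [hZ1]; simp only [h1, h2, if_false]
  have hmemZ1 : ∀ a, a ≤ n → u a ∈ Z1 a := by
    intro a ha
    by_cases h1 : a = 0
    · rw [h1, z0, hu0]; exact ⟨i, le_refl _, hij, st.bags.mem i (by omega)⟩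
    · by_cases h2 : a = n
      · rw [h2, zn, hun]; exact st.bags.mem j hj
      · rw [za a h1 h2]; rfl
  have hCarc : ∀ x ∈ C, x ∉ arc Z i j := by
    rintro x hx ⟨k, h1, h2, h3⟩
    exact st.bags.out k (by omega) x hx h3
  have hout1 : ∀ a, a ≤ n → ∀ x ∈ comp G C c, x ∈ Z1 a → a ≠ 0 ∧ a ≠ n ∧ x = u a := by
    intro a ha x hx hxa
    by_cases h1 : a = 0
    · rw [h1, z0] at hxa; exact absurd hxa (hCarc x (comp_sub hx))
    · by_cases h2 : a = n
      · rw [h2, zn] at hxa; exact absurd hxa (st.bags.out j hj x (comp_sub hx))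
      · rw [za a h1 h2] at hxa; exact ⟨h1, h2, hxa⟩
  have hdisj1 : ∀ a b, a ≤ n → b ≤ n → a < b → Disjoint (Z1 a) (Z1 b) := by
    intro a b ha hb hab
    by_cases h2 : b = n
    · by_cases h1 : a = 0
      · rw [h1, h2, z0, zn, Set.disjoint_left]
        rintro x ⟨k, g1, g2, g3⟩ hx
        exact Set.disjoint_left.1 (st.bags.disj k (by omega) j hj (by omega)) g3 hx
      · rw [Set.disjoint_left]
        intro x hx hx'
        rw [za a h1 (by omega)] at hx
        rw [Set.mem_singleton_iff] at hx
        have h3 := huK a (by omega) (by omega)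
        rw [← hx] at h3
        have := (hout1 b hb x h3 hx').2.1
        exact this h2
    · rw [Set.disjoint_left]
      intro x hx hx'
      rw [za b (by omega) h2, Set.mem_singleton_iff] at hx'
      have h3 := huK b (by omega) (by omega)
      rw [← hx'] at h3
      have h4 := (hout1 a ha x h3 hx).2.2
      have := huinj a b ha hb (h4.symm.trans hx')
      omega
  have st1 : St G (X ∪ Q) (comp G C c \ Q) R1 n u A B Z1 := by
    refine ⟨k2, ?_, k3, fun a ha => k4 a ha, fun a ha b hb h => huinj a b ha hb h, ?_, ?_, ?_,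
      ⟨?_, hmemZ1, ?_, ?_, ?_, ?_⟩⟩
    · intro x hx hx'
      rw [mem_sdiff] at hx
      rw [mem_union] at hx'
      rcases hx' with h | h
      · exact hKX x hx.1 h
      · exact hx.2 h
    · intro x hx y hy hxy
      have hx' := (mem_sdiff.1 hx).1
      rw [mem_union] at hy
      rcases hy with h | h
      · obtain ⟨l, hl, hyl⟩ := st.att x (comp_sub hx') y h hxy
        rcases honly l hl (by rw [hAt]; exact ⟨x, hx', hyl ▸ hxy⟩) with h1 | h1
        · exact ⟨0, Nat.zero_le _, by rw [hyl, h1, hu0]⟩
        · exact ⟨n, le_refl _, by rw [hyl, h1, hun]⟩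
      · obtain ⟨a, ha, rfl⟩ := (memQ y).1 h
        exact ⟨a, ha.2.le, rfl⟩
    · intro x hx a ha b hb h1 h2
      rcases lt_trichotomy a b with h | h | h
      · exact (hha x hx a b ha hb h h1 h2).elim
      · exact h
      · exact (hha x hx b a hb ha h h2 h1).elim
    · intro x hx y hy hxy a ha b hb h1 h2
      rcases lt_trichotomy a b with h | h | h
      · exact (hhb x hx y hy hxy a b ha hb h h1 h2).elim
      · exact h
      · exact (hhb y hy x hx hxy.symm b a hb ha h h2 h1).elim
    · intro a ha
      by_cases h1 : a = 0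
      · rw [h1, z0]; exact arc_con st.bags hij (by omega)
      · by_cases h2 : a = n
        · rw [h2, zn]; exact st.bags.con j hj
        · rw [za a h1 h2]; exact con_single G _
    · intro a ha b hb hab
      rcases lt_or_gt_of_ne hab with h | h
      · exact hdisj1 a b ha hb h
      · exact (hdisj1 b a hb ha h).symm
    · intro a ha x hx hxa
      have hx' := (mem_sdiff.1 hx).1
      exact hxu x hx a ha (hout1 a ha x hx' hxa).2.2
    · intro a ha
      exact ⟨u a, hmemZ1 a (by omega), u (a + 1), hmemZ1 (a + 1) (by omega), huadj a ha⟩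
    · intro _
      rw [zn, z0]
      have h1 := st.bags.adj (j - 1) (by omega)
      rw [show j - 1 + 1 = j by omega] at h1
      exact h1.symm.mono (Set.Subset.refl _) (sub_arc (by omega) (by omega))
  have hcard1 : (comp G C c \ Q).card < C.card := by
    have hQne : Q.Nonempty := ⟨u 1, (memQ _).2 ⟨1, ⟨by omega, by omega⟩, rfl⟩⟩
    exact lt_of_lt_of_le (Finset.card_lt_card (Finset.sdiff_ssubset hQK hQne))
      (card_le_card comp_sub)
  obtain ⟨R2, g1, g2, g3⟩ := IH _ _ _ _ _ _ _ _ hcard1 st1
  rw [Finset.union_assoc, Finset.union_sdiff_of_subset hQK] at g2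
  have hR2X : ∀ x ∈ X, R2 x = R x := by
    intro x hx
    rw [g1 x (mem_union_left _ hx), k1 x hx]
  have hbd : ∀ y ∈ comp G C c, γ < (R2 y).b ∧ (R2 y).t < δ := by
    intro y hy
    by_cases hyQ : y ∈ Q
    · rw [g1 y (mem_union_right _ hyQ)]
      obtain ⟨a, ha, rfl⟩ := (memQ y).1 hyQ
      exact k7 a ha.1 ha.2
    · have := g3 y (mem_sdiff.2 ⟨hy, hyQ⟩)
      exact ⟨by linarith [this.1], by linarith [this.2]⟩
  -- the outer part
  obtain ⟨f, hf⟩ : ∃ f : ℕ → ℕ, f = fun k => if k ≤ i then k else k + (j - i - 1) := ⟨_, rfl⟩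
  have f1 : ∀ k, k ≤ i → f k = k := by intro k hk; rw [hf]; simp only [hk, if_true]
  have f2 : ∀ k, i < k → f k = k + (j - i - 1) := by
    intro k hk; rw [hf]; simp only; rw [if_neg (by omega)]
  obtain ⟨m', hm'⟩ : ∃ m', m' = m - (j - i - 1) := ⟨_, rfl⟩
  obtain ⟨α', hα'⟩ : ∃ α' : ℕ → ℝ, α' = fun k => if k = i + 1 then δ else α (f k) := ⟨_, rfl⟩
  obtain ⟨β', hβ'⟩ : ∃ β' : ℕ → ℝ, β' = fun k => if k = i then γ else β (f k) := ⟨_, rfl⟩
  obtain ⟨Z', hZ'⟩ : ∃ Z' : ℕ → Set V, Z' = fun k => if k = i then arc Z i j else Z (f k) :=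
    ⟨_, rfl⟩
  have a1 : α' (i + 1) = δ := by rw [hα']; simp
  have a2 : ∀ k, k ≠ i + 1 → α' k = α (f k) := by intro k hk; rw [hα']; simp only [hk, if_false]
  have b1 : β' i = γ := by rw [hβ']; simp
  have b2 : ∀ k, k ≠ i → β' k = β (f k) := by intro k hk; rw [hβ']; simp only [hk, if_false]
  have y1 : Z' i = arc Z i j := by rw [hZ']; simp
  have y2 : ∀ k, k ≠ i → Z' k = Z (f k) := by intro k hk; rw [hZ']; simp only [hk, if_false]
  have hfm : ∀ k ≤ m', f k ≤ m := by
    intro k hk
    by_cases h : k ≤ i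
    · rw [f1 k h]; omega
    · rw [f2 k (by omega)]; omega
  have hfinj : ∀ k ≤ m', ∀ k' ≤ m', f k = f k' → k = k' := by
    intro k _ k' _ h
    by_cases h1 : k ≤ i <;> by_cases h2 : k' ≤ i
    · rw [f1 k h1, f1 k' h2] at h; exact h
    · rw [f1 k h1, f2 k' (by omega)] at h; omega
    · rw [f2 k (by omega), f1 k' h2] at h; omega
    · rw [f2 k (by omega), f2 k' (by omega)] at h; omega
  have hsubZ : ∀ k, k ≤ m' → Z (f k) ⊆ Z' k := by
    intro k _
    by_cases h : k = i
    · rw [h, y1, f1 i (le_refl _)]; exact sub_arc (le_refl _) hij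
    · rw [y2 k h]
  have st2 := outer st (c := c) g2 (m' := m') (f := f) hfm hfinj (α' := α') (β' := β')
    (by
      intro k hk
      have hvk := st.vis (f k) (hfm k hk)
      rcases lt_trichotomy k i with h | h | h
      · rw [a2 k (by omega), b2 k (by omega)]
        apply vis_extend hvk hR2X
        intro y hy
        right
        have e1 := st.lt (i := f k) (j := i) (by rw [f1 k (by omega)]; exact h) (by omega)
        have e2 := (hbd y hy).1
        linarith
      · subst h
        rw [a2 k (by omega), b1]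
        rw [f1 k (le_refl _)] at hvk ⊢
        apply vis_extend (hvk.sub (le_refl _) hγ1 hγ2.le) hR2X
        intro y hy
        right
        exact (hbd y hy).1.le
      · by_cases h' : k = i + 1
        · rw [h', a1, b2 (i + 1) (by omega)]
          have e0 : f (i + 1) = j := by rw [f2 _ (by omega)]; omega
          rw [e0]
          apply vis_extend (hvj.sub hδ1.le hδ2 (le_refl _)) hR2X
          intro y hy
          left
          exact (hbd y hy).2.le
        · rw [a2 k h', b2 k (by omega)]
          apply vis_extend hvk hR2X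
          intro y hy
          left
          have e1 := st.lt (i := j) (j := f k) (by rw [f2 k h]; omega) (hfm k hk)
          have e2 := (hbd y hy).2
          linarith)
    (by
      intro k hk
      rcases lt_trichotomy k i with h | h | h
      · rw [b2 k (by omega), a2 (k + 1) (by omega), f1 k (by omega), f1 (k + 1) (by omega)]
        exact st.ord k (by omega)
      · rw [h, b1, a1]; linarith
      · rw [b2 k (by omega), a2 (k + 1) (by omega), f2 k h, f2 (k + 1) (by omega)]
        have := st.ord (k + (j - i - 1)) (by omega)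
        rwa [show k + (j - i - 1) + 1 = k + 1 + (j - i - 1) by omega] at this)
    (by
      intro x hx l hl hadj
      by_cases h1 : l ≤ i
      · exact ⟨l, by omega, f1 l h1⟩
      · by_cases h2 : l < j
        · exact absurd hadj (hbetween x hx l (by omega) h2)
        · exact ⟨l - (j - i - 1), by omega, by rw [f2 _ (by omega)]; omega⟩)
    (Z' := Z')
    (by
      refine ⟨?_, ?_, ?_, ?_, ?_, ?_⟩
      · intro k hk
        by_cases h : k = i
        · rw [h, y1]; exact arc_con st.bags hij (by omega)
        · rw [y2 k h]; exact st.bags.con _ (hfm k hk)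
      · intro k hk
        exact hsubZ k hk (st.bags.mem _ (hfm k hk))
      · have key : ∀ k ≤ m', k ≠ i → Disjoint (arc Z i j) (Z (f k)) := by
          intro k hk hki
          rw [Set.disjoint_left]
          rintro x ⟨l, g1, g2, g3⟩ hx
          refine Set.disjoint_left.1 (st.bags.disj l (by omega) (f k) (hfm k hk) ?_) g3 hx
          rcases lt_or_gt_of_ne hki with h | h
          · rw [f1 k (by omega)]; omega
          · rw [f2 k h]; omega
        intro k hk k' hk' hkk
        by_cases h1 : k = i
        · by_cases h2 : k' = i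
          · omega
          · rw [h1, y1, y2 k' h2]; exact key k' hk' h2
        · by_cases h2 : k' = i
          · rw [h2, y1, y2 k h1]; exact (key k hk h1).symm
          · rw [y2 k h1, y2 k' h2]
            exact st.bags.disj _ (hfm k hk) _ (hfm k' hk') (fun h => hkk (hfinj k hk k' hk' h))
      · intro k hk x hx
        have hxC := (mem_sdiff.1 hx).1
        by_cases h : k = i
        · rw [h, y1]; exact hCarc x hxC
        · rw [y2 k h]; exact st.bags.out _ (hfm k hk) x hxC
      · intro k hk
        rcases lt_trichotomy k i with h | h | h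
        · have h1 := st.bags.adj k (by omega)
          have e1 := hsubZ k (by omega)
          have e2 := hsubZ (k + 1) (by omega)
          rw [f1 k (by omega)] at e1
          rw [f1 (k + 1) (by omega)] at e2
          exact h1.mono e1 e2
        · have h1 := st.bags.adj (j - 1) (by omega)
          rw [show j - 1 + 1 = j by omega] at h1
          have e2 := hsubZ (k + 1) (by omega)
          rw [f2 (k + 1) (by omega), show k + 1 + (j - i - 1) = j by omega] at e2
          refine h1.mono ?_ e2
          rw [h, y1]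
          exact sub_arc (by omega) (by omega)
        · have h1 := st.bags.adj (k + (j - i - 1)) (by omega)
          have e1 := hsubZ k (by omega)
          have e2 := hsubZ (k + 1) (by omega)
          rw [f2 k h] at e1
          rw [f2 (k + 1) (by omega), show k + 1 + (j - i - 1) = k + (j - i - 1) + 1 by omega] at e2
          exact h1.mono e1 e2
      · intro _
        have h1 := st.bags.cyc (by omega)
        have e1 := hsubZ m' (le_refl _)
        have e2 := hsubZ 0 (Nat.zero_le _)
        rw [f2 m' (by omega), show m' + (j - i - 1) = m by omega] at e1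
        rw [f1 0 (Nat.zero_le _)] at e2
        exact h1.mono e1 e2)
  have hcard : (C \ comp G C c).card < C.card :=
    Finset.card_lt_card (Finset.sdiff_ssubset comp_sub ⟨c, self_mem_comp hc⟩)
  have h3 := IH _ _ _ _ _ _ _ _ hcard st2
  have e1 : α' 0 = α 0 := by rw [a2 0 (by omega), f1 0 (Nat.zero_le _)]
  have e2 : β' m' = β m := by
    rw [b2 m' (by omega), f2 m' (by omega), show m' + (j - i - 1) = m by omega]
  rw [e1, e2] at h3
  refine Ext.comb comp_sub hR2X (fun y hy => ?_) h3
  have e3 := hbd y hy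
  have e4 := st.lo (i := i) (by omega)
  have e5 := st.hi (i := j) hj
  exact ⟨by linarith [e3.1], by linarith [e3.2]⟩

end Pool.Agent.Q296.CBU
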