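import Mathlib

/-! Rectangle contact drawings: moves far to the left. -/

set_option autoImplicit false

namespace Pool.Agent.Q296.CBU

open Finset

/-- rectangles `[l,r] × [b,t]` -/
structure Rect where
  l : ℝ
  r : ℝ
  b : ℝ
  t : ℝ
  hlr : l < r
  hbt : b < t

/-- contact along a vertical segment of positive length -/
def Touch (A B : Rect) : Prop := (A.r = B.l ∨ B.r = A.l) ∧ A.b < B.t ∧ B.b < A.t

/-- disjoint closed rectangles -/
def Apart (A B : Rect) : Prop := A.r < B.l ∨ B.r < A.l ∨ A.t < B.b ∨ B.t < A.b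

lemma Touch.symm {A B : Rect} (h : Touch A B) : Touch B A := ⟨h.1.symm, h.2.2, h.2.1⟩

lemma Apart.symm {A B : Rect} (h : Apart A B) : Apart B A := by
  unfold Apart at *
  tauto

variable {V : Type*} [DecidableEq V]

/-- valid drawing of the vertices in `X` -/
def Valid (G : SimpleGraph V) (X : Finset V) (R : V → Rect) : Prop :=
  ∀ u ∈ X, ∀ v ∈ X, u ≠ v → (G.Adj u v → Touch (R u) (R v)) ∧ (¬ G.Adj u v → Apart (R u) (R v))

/-- `v` is visible from the left on the open interval `(α,β)` -/
def Vis (X : Finset V) (R : V → Rect) (v : V) (α β : ℝ) : Prop :=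
  v ∈ X ∧ α < β ∧ (R v).b ≤ α ∧ β ≤ (R v).t ∧
    ∀ u ∈ X, u ≠ v → (R v).l < (R u).l ∨ (R u).t ≤ α ∨ β ≤ (R u).b

omit [DecidableEq V] in
lemma Vis.sub {X : Finset V} {R : V → Rect} {v : V} {α β α' β' : ℝ} (h : Vis X R v α β)
    (h1 : α ≤ α') (h2 : α' < β') (h3 : β' ≤ β) : Vis X R v α' β' := by
  obtain ⟨a1, a2, a3, a4, a5⟩ := h
  refine ⟨a1, h2, a3.trans h1, h3.trans a4, fun u hu huv => ?_⟩
  rcases a5 u hu huv with h | h | h
  · exact Or.inl h
  · exact Or.inr (Or.inl (h.trans h1))
  · exact Or.inr (Or.inr (h3.trans h))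

lemma valid_insert {G : SimpleGraph V} {X : Finset V} {R : V → Rect} (hV : Valid G X R) {w : V}
    (hw : w ∉ X) {q : Rect}
    (h : ∀ u ∈ X, (G.Adj w u → Touch q (R u)) ∧ (¬ G.Adj w u → Apart q (R u))) :
    Valid G (insert w X) (Function.update R w q) := by
  intro u hu v hv huv
  rw [mem_insert] at hu hv
  have hne : ∀ x ∈ X, x ≠ w := by rintro x hx rfl; exact hw hx
  rcases hu with rfl | hu <;> rcases hv with rfl | hv
  · exact absurd rfl huv
  · rw [Function.update_self, Function.update_of_ne (hne v hv)]
    exact h v hv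
  · rw [Function.update_self, Function.update_of_ne (hne u hu)]
    refine ⟨fun h1 => ((h u hu).1 h1.symm).symm, fun h1 => ((h u hu).2 (fun h2 => h1 h2.symm)).symm⟩
  · rw [Function.update_of_ne (hne v hv), Function.update_of_ne (hne u hu)]
    exact hV u hu v hv huv

lemma vis_insert {X : Finset V} {R : V → Rect} {v : V} {α β : ℝ} (h : Vis X R v α β) {w : V}
    (hw : w ∉ X) {q : Rect} (hq : (R v).l < q.l ∨ q.t ≤ α ∨ β ≤ q.b) :
    Vis (insert w X) (Function.update R w q) v α β := by
  obtain ⟨a1, a2, a3, a4, a5⟩ := h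
  have hne : ∀ x ∈ X, x ≠ w := by rintro x hx rfl; exact hw hx
  unfold Vis
  rw [Function.update_of_ne (hne v a1)]
  refine ⟨mem_insert_of_mem a1, a2, a3, a4, fun u hu huv => ?_⟩
  rw [mem_insert] at hu
  rcases hu with rfl | hu
  · rw [Function.update_self]; exact hq
  · rw [Function.update_of_ne (hne u hu)]; exact a5 u hu huv

/-- visibility survives if the new rectangles avoid the interval -/
lemma vis_extend {X Y : Finset V} {R R' : V → Rect} {v : V} {α β : ℝ} (h : Vis X R v α β)
    (hR : ∀ x ∈ X, R' x = R x) (hY : ∀ y ∈ Y, (R' y).t ≤ α ∨ β ≤ (R' y).b) :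
    Vis (X ∪ Y) R' v α β := by
  obtain ⟨a1, a2, a3, a4, a5⟩ := h
  unfold Vis
  rw [hR v a1]
  refine ⟨mem_union_left _ a1, a2, a3, a4, fun u hu huv => ?_⟩
  rw [mem_union] at hu
  rcases hu with hu | hu
  · rw [hR u hu]; exact a5 u hu huv
  · exact Or.inr (hY u hu)

lemma exists_left (X : Finset V) (R : V → Rect) (x0 : ℝ) :
    ∃ M : ℝ, M < x0 ∧ ∀ u ∈ X, M < (R u).l := by
  induction X using Finset.induction_on with
  | empty => exact ⟨x0 - 1, by linarith, by simp⟩
  | insert a s ha ih =>
    obtain ⟨M, h1, h2⟩ := ih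
    refine ⟨min M ((R a).l - 1), lt_of_le_of_lt (min_le_left _ _) h1, fun u hu => ?_⟩
    rw [mem_insert] at hu
    rcases hu with rfl | hu
    · exact lt_of_le_of_lt (min_le_right _ _) (by linarith)
    · exact lt_of_le_of_lt (min_le_left _ _) (h2 u hu)

/-- draw an isolated vertex -/
lemma iso {G : SimpleGraph V} {X : Finset V} {R : V → Rect} (hV : Valid G X R) {w : V}
    (hw : w ∉ X) (hadj : ∀ u ∈ X, ¬ G.Adj w u) {b t : ℝ} (hbt : b < t) :
    ∃ q : Rect, q.b = b ∧ q.t = t ∧ Valid G (insert w X) (Function.update R w q) ∧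
      Vis (insert w X) (Function.update R w q) w b t := by
  obtain ⟨M, -, hM⟩ := exists_left X R 0
  refine ⟨⟨M - 1, M, b, t, by linarith, hbt⟩, rfl, rfl, ?_, ?_⟩
  · apply valid_insert hV hw
    intro u hu
    exact ⟨fun h => absurd h (hadj u hu), fun _ => Or.inl (hM u hu)⟩
  · unfold Vis
    rw [Function.update_self]
    refine ⟨mem_insert_self _ _, hbt, le_refl _, le_refl _, fun u hu huw => ?_⟩
    rw [mem_insert] at hu
    rcases hu with rfl | hu
    · exact absurd rfl huw
    · rw [Function.update_of_ne huw]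
      left
      have := hM u hu
      simp only
      linarith

/-- draw a pendant vertex -/
lemma pend {G : SimpleGraph V} {X : Finset V} {R : V → Rect} (hV : Valid G X R) {w v : V}
    (hw : w ∉ X) {α β : ℝ} (hvis : Vis X R v α β) (hadj : ∀ u ∈ X, G.Adj w u ↔ u = v)
    {b t : ℝ} (h1 : α < b) (hbt : b < t) (h2 : t < β) {x0 : ℝ} (hx0 : x0 < (R v).l) :
    ∃ q : Rect, q.l = x0 ∧ q.b = b ∧ q.t = t ∧ Valid G (insert w X) (Function.update R w q) ∧
      Vis (insert w X) (Function.update R w q) w b t ∧
      Vis (insert w X) (Function.update R w q) v α b ∧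
      Vis (insert w X) (Function.update R w q) v t β := by
  have hvX := hvis.1
  obtain ⟨-, a2, a3, a4, a5⟩ := id hvis
  refine ⟨⟨x0, (R v).l, b, t, hx0, hbt⟩, rfl, rfl, rfl, ?_, ?_, ?_, ?_⟩
  · apply valid_insert hV hw
    intro u hu
    by_cases huv : u = v
    · subst huv
      refine ⟨fun _ => ⟨Or.inl rfl, ?_, ?_⟩, fun h => absurd ((hadj u hu).2 rfl) h⟩
      · simp only; linarith
      · simp only; linarith
    · refine ⟨fun h => absurd ((hadj u hu).1 h) huv, fun _ => ?_⟩
      rcases a5 u hu huv with h | h | h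
      · exact Or.inl h
      · right; right; right
        simp only; linarith
      · right; right; left
        simp only; linarith
  · unfold Vis
    rw [Function.update_self]
    refine ⟨mem_insert_self _ _, hbt, le_refl _, le_refl _, fun u hu huw => ?_⟩
    rw [mem_insert] at hu
    rcases hu with rfl | hu
    · exact absurd rfl huw
    · rw [Function.update_of_ne huw]
      by_cases huv : u = v
      · subst huv; left; exact hx0
      · rcases a5 u hu huv with h | h | h
        · left; simp only; linarith
        · right; left; linarith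
        · right; right; linarith
  · exact vis_insert (hvis.sub (le_refl _) h1 (by linarith)) hw (Or.inr (Or.inr (le_refl _)))
  · exact vis_insert (hvis.sub (by linarith) h2 (le_refl _)) hw (Or.inr (Or.inl (le_refl _)))

/-- draw a vertex adjacent to two vertices with the same left side -/
lemma join {G : SimpleGraph V} {X : Finset V} {R : V → Rect} (hV : Valid G X R) {w u v : V}
    (hw : w ∉ X) {α β α' β' x0 : ℝ} (hu : Vis X R u α β) (hv : Vis X R v α' β') (hord : β ≤ α')
    (hul : (R u).l = x0) (hvl : (R v).l = x0)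
    (hoth : ∀ x ∈ X, x ≠ u → x ≠ v → x0 < (R x).l)
    (hadj : ∀ x ∈ X, G.Adj w x ↔ (x = u ∨ x = v))
    {b t : ℝ} (h1 : α < b) (h2 : b < β) (h3 : α' < t) (h4 : t < β') :
    ∃ q : Rect, q.b = b ∧ q.t = t ∧ Valid G (insert w X) (Function.update R w q) ∧
      Vis (insert w X) (Function.update R w q) w b t ∧
      Vis (insert w X) (Function.update R w q) u α b ∧
      Vis (insert w X) (Function.update R w q) v t β' := by
  obtain ⟨-, a2, a3, a4, a5⟩ := id hu
  obtain ⟨-, c2, c3, c4, c5⟩ := id hv
  have hbt : b < t := by linarith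
  refine ⟨⟨x0 - 1, x0, b, t, by linarith, hbt⟩, rfl, rfl, ?_, ?_, ?_, ?_⟩
  · apply valid_insert hV hw
    intro x hx
    by_cases hxu : x = u
    · subst hxu
      refine ⟨fun _ => ⟨Or.inl hul.symm, ?_, ?_⟩, fun h => absurd ((hadj x hx).2 (Or.inl rfl)) h⟩
      · simp only; linarith
      · simp only; linarith
    · by_cases hxv : x = v
      · subst hxv
        refine ⟨fun _ => ⟨Or.inl hvl.symm, ?_, ?_⟩, fun h => absurd ((hadj x hx).2 (Or.inr rfl)) h⟩
        · simp only; linarith
        · simp only; linarith
      · refine ⟨fun h => ?_, fun _ => Or.inl (hoth x hx hxu hxv)⟩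
        rcases (hadj x hx).1 h with h | h
        · exact absurd h hxu
        · exact absurd h hxv
  · unfold Vis
    rw [Function.update_self]
    refine ⟨mem_insert_self _ _, hbt, le_refl _, le_refl _, fun x hx hxw => ?_⟩
    rw [mem_insert] at hx
    rcases hx with rfl | hx
    · exact absurd rfl hxw
    · rw [Function.update_of_ne hxw]
      left
      simp only
      by_cases hxu : x = u
      · subst hxu; linarith
      · by_cases hxv : x = v
        · subst hxv; linarith
        · have := hoth x hx hxu hxv; linarith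
  · exact vis_insert (hu.sub (le_refl _) h1 h2.le) hw (Or.inr (Or.inr (le_refl _)))
  · exact vis_insert (hv.sub h3.le h4 (le_refl _)) hw (Or.inr (Or.inl (le_refl _)))

/-- the drawn set after adding the interior of a path -/
def pathSet (X : Finset V) (n : ℕ) (u : ℕ → V) : Finset V := X ∪ (Ioo 0 n).image u

lemma mem_pathSet {X : Finset V} {n : ℕ} {u : ℕ → V} {x : V} :
    x ∈ pathSet X n u ↔ x ∈ X ∨ ∃ a, (0 < a ∧ a < n) ∧ u a = x := by
  unfold pathSet
  rw [mem_union, mem_image]
  simp only [mem_Ioo]

/-- draw an ear with at least three inner vertices -/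
lemma ear {G : SimpleGraph V} : ∀ (n : ℕ), 4 ≤ n → ∀ (X : Finset V) (R : V → Rect) (u : ℕ → V)
    (α β α' β' : ℝ), Valid G X R → Vis X R (u 0) α β → Vis X R (u n) α' β' → β ≤ α' →
    u 0 ≠ u n →
    (∀ a, 0 < a → a < n → u a ∉ X) →
    (∀ a b, a ≤ n → b ≤ n → u a = u b → a = b) →
    (∀ a b, 0 < a → a < n → 0 < b → b < n → (G.Adj (u a) (u b) ↔ (a = b + 1 ∨ b = a + 1))) →
    (∀ a, 0 < a → a < n → ∀ x ∈ X, (G.Adj (u a) x ↔ ((x = u 0 ∧ a = 1) ∨ (x = u n ∧ a + 1 = n)))) →
    ∃ (R1 : V → Rect) (A B : ℕ → ℝ), (∀ x ∈ X, R1 x = R x) ∧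
      Valid G (pathSet X n u) R1 ∧
      (∀ a, a ≤ n → Vis (pathSet X n u) R1 (u a) (A a) (B a)) ∧
      (∀ a, a < n → B a ≤ A (a + 1)) ∧ α ≤ A 0 ∧ B n ≤ β' ∧
      (∀ a, 0 < a → a < n → α < (R1 (u a)).b ∧ (R1 (u a)).t < β') := by
  intro n hn
  induction n, hn using Nat.le_induction with
  | base =>
    intro X R u α β α' β' hV h0 h4 hord hne hnX hinj hpp hpX
    obtain ⟨M, hM0, hM⟩ := exists_left X R 0
    have i0 : ∀ a b, a ≤ 4 → b ≤ 4 → a ≠ b → u a ≠ u b := fun a b ha hb hab h =>
      hab (hinj a b ha hb h)
    have u0X := h0.1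
    have u4X := h4.1
    -- the first vertex
    obtain ⟨b1, hb1, hb1'⟩ := exists_between h0.2.1
    obtain ⟨t1, ht1, ht1'⟩ := exists_between hb1'
    obtain ⟨q1, e1l, e1b, e1t, V1, W1, W1a, W1b⟩ := pend hV (w := u 1) (v := u 0)
      (hnX 1 (by norm_num) (by norm_num)) h0 (by
        intro x hx
        rw [hpX 1 (by norm_num) (by norm_num) x hx]
        constructor
        · rintro (h | h)
          · exact h.1
          · omega
        · intro h; exact Or.inl ⟨h, rfl⟩) hb1 ht1 ht1' (x0 := M) (hM _ u0X)
    obtain ⟨X1, hX1⟩ : ∃ X1, X1 = insert (u 1) X := ⟨_, rfl⟩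
    obtain ⟨R1, hR1⟩ : ∃ R1, R1 = Function.update R (u 1) q1 := ⟨_, rfl⟩
    rw [← hX1, ← hR1] at V1 W1 W1a
    have R1X : ∀ x ∈ X, R1 x = R x := by
      intro x hx
      rw [hR1, Function.update_of_ne]
      rintro rfl; exact hnX 1 (by norm_num) (by norm_num) hx
    have R11 : R1 (u 1) = q1 := by rw [hR1, Function.update_self]
    have W14 : Vis X1 R1 (u 4) α' β' := by
      rw [hX1, hR1]
      refine vis_insert h4 (hnX 1 (by norm_num) (by norm_num)) (Or.inr (Or.inl ?_))
      rw [e1t]; linarith
    -- the third vertex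
    obtain ⟨b3, hb3, hb3'⟩ := exists_between h4.2.1
    obtain ⟨t3, ht3, ht3'⟩ := exists_between hb3'
    have n3 : u 3 ∉ X1 := by
      rw [hX1, mem_insert]
      rintro (h | h)
      · exact i0 3 1 (by norm_num) (by norm_num) (by norm_num) h
      · exact hnX 3 (by norm_num) (by norm_num) h
    obtain ⟨q3, e3l, e3b, e3t, V3, W3, W3a, W3b⟩ := pend V1 (w := u 3) (v := u 4)
      n3 W14 (by
        intro x hx
        rw [hX1, mem_insert] at hx
        rcases hx with rfl | hx
        · rw [hpp 3 1 (by norm_num) (by norm_num) (by norm_num) (by norm_num)]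
          constructor
          · intro h; omega
          · intro h; exact absurd h (i0 1 4 (by norm_num) (by norm_num) (by norm_num))
        · rw [hpX 3 (by norm_num) (by norm_num) x hx]
          constructor
          · rintro (h | h)
            · omega
            · exact h.1
          · intro h; exact Or.inr ⟨h, rfl⟩) hb3 ht3 ht3' (x0 := M)
        (by rw [R1X _ u4X]; exact hM _ u4X)
    obtain ⟨X3, hX3⟩ : ∃ X3, X3 = insert (u 3) X1 := ⟨_, rfl⟩
    obtain ⟨R3, hR3⟩ : ∃ R3, R3 = Function.update R1 (u 3) q3 := ⟨_, rfl⟩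
    have n31 : u 1 ≠ u 3 := i0 1 3 (by norm_num) (by norm_num) (by norm_num)
    have W30 : Vis X3 R3 (u 0) α b1 := by
      rw [hX3, hR3]
      refine vis_insert W1a n3 (Or.inr (Or.inr ?_))
      rw [e3b]; linarith
    have W31 : Vis X3 R3 (u 1) b1 t1 := by
      rw [hX3, hR3]
      refine vis_insert W1 n3 (Or.inr (Or.inr ?_))
      rw [e3b]; linarith
    rw [← hX3, ← hR3] at V3 W3 W3b
    have R3X : ∀ x ∈ X, R3 x = R x := by
      intro x hx
      rw [hR3, Function.update_of_ne, R1X x hx]
      rintro rfl; exact hnX 3 (by norm_num) (by norm_num) hx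
    have R33 : R3 (u 3) = q3 := by rw [hR3, Function.update_self]
    have R31 : R3 (u 1) = q1 := by rw [hR3, Function.update_of_ne n31, R11]
    -- the middle vertex
    have n2 : u 2 ∉ X3 := by
      rw [hX3, mem_insert, hX1, mem_insert]
      rintro (h | h | h)
      · exact i0 2 3 (by norm_num) (by norm_num) (by norm_num) h
      · exact i0 2 1 (by norm_num) (by norm_num) (by norm_num) h
      · exact hnX 2 (by norm_num) (by norm_num) h
    obtain ⟨b2, hb2, hb2'⟩ := exists_between W31.2.1
    obtain ⟨t2, ht2, ht2'⟩ := exists_between W3.2.1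
    obtain ⟨q2, e2b, e2t, V2, W2, W2a, W2b⟩ := join V3 (w := u 2) (u := u 1) (v := u 3) n2
      W31 W3 (by linarith) (x0 := M) (by rw [R31, e1l]) (by rw [R33, e3l])
      (by
        intro x hx h1 h3
        rw [hX3, mem_insert, hX1, mem_insert] at hx
        rcases hx with h | h | h
        · exact absurd h h3
        · exact absurd h h1
        · rw [R3X x h]; exact hM x h)
      (by
        intro x hx
        rw [hX3, mem_insert, hX1, mem_insert] at hx
        rcases hx with rfl | rfl | h
        · rw [hpp 2 3 (by norm_num) (by norm_num) (by norm_num) (by norm_num)]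
          constructor
          · intro _; exact Or.inr rfl
          · intro _; omega
        · rw [hpp 2 1 (by norm_num) (by norm_num) (by norm_num) (by norm_num)]
          constructor
          · intro _; exact Or.inl rfl
          · intro _; omega
        · rw [hpX 2 (by norm_num) (by norm_num) x h]
          constructor
          · rintro (h' | h')
            · omega
            · omega
          · rintro (rfl | rfl)
            · exact absurd h (hnX 1 (by norm_num) (by norm_num))
            · exact absurd h (hnX 3 (by norm_num) (by norm_num)))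
      hb2 hb2' ht2 ht2'
    obtain ⟨R2, hR2⟩ : ∃ R2, R2 = Function.update R3 (u 2) q2 := ⟨_, rfl⟩
    have hX2 : insert (u 2) X3 = pathSet X 4 u := by
      ext x
      rw [mem_pathSet, mem_insert, hX3, mem_insert, hX1, mem_insert]
      constructor
      · rintro (rfl | rfl | rfl | h)
        · exact Or.inr ⟨2, by norm_num, rfl⟩
        · exact Or.inr ⟨3, by norm_num, rfl⟩
        · exact Or.inr ⟨1, by norm_num, rfl⟩
        · exact Or.inl h
      · rintro (h | ⟨a, ha, rfl⟩)
        · exact Or.inr (Or.inr (Or.inr h))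
        · have : a = 1 ∨ a = 2 ∨ a = 3 := by omega
          rcases this with rfl | rfl | rfl
          · exact Or.inr (Or.inr (Or.inl rfl))
          · exact Or.inl rfl
          · exact Or.inr (Or.inl rfl)
    have W20 : Vis (insert (u 2) X3) R2 (u 0) α b1 := by
      rw [hR2]
      refine vis_insert W30 n2 (Or.inr (Or.inr ?_))
      rw [e2b]; linarith
    have W24 : Vis (insert (u 2) X3) R2 (u 4) t3 β' := by
      rw [hR2]
      refine vis_insert W3b n2 (Or.inr (Or.inl ?_))
      rw [e2t]; linarith
    rw [← hR2] at V2 W2 W2a W2b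
    rw [hX2] at V2 W2 W2a W2b W20 W24
    refine ⟨R2, fun a => if a = 0 then α else if a = 1 then b1 else if a = 2 then b2 else
        if a = 3 then t2 else t3,
      fun a => if a = 0 then b1 else if a = 1 then b2 else if a = 2 then t2 else
        if a = 3 then t3 else β', ?_, V2, ?_, ?_, ?_, ?_, ?_⟩
    · intro x hx
      rw [hR2, Function.update_of_ne, R3X x hx]
      rintro rfl; exact hnX 2 (by norm_num) (by norm_num) hx
    · intro a ha
      have : a = 0 ∨ a = 1 ∨ a = 2 ∨ a = 3 ∨ a = 4 := by omega
      rcases this with rfl | rfl | rfl | rfl | rfl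
      · simpa using W20
      · simpa using W2a
      · simpa using W2
      · simpa using W2b
      · simpa using W24
    · intro a ha
      have : a = 0 ∨ a = 1 ∨ a = 2 ∨ a = 3 := by omega
      rcases this with rfl | rfl | rfl | rfl <;> simp
    · simp
    · simp
    · intro a ha ha'
      have : a = 1 ∨ a = 2 ∨ a = 3 := by omega
      rcases this with rfl | rfl | rfl
      · rw [hR2, Function.update_of_ne (i0 1 2 (by norm_num) (by norm_num) (by norm_num)), R31,
          e1b, e1t]
        constructor <;> linarith [h4.2.1]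
      · rw [hR2, Function.update_self, e2b, e2t]
        constructor <;> linarith
      · rw [hR2, Function.update_of_ne (i0 3 2 (by norm_num) (by norm_num) (by norm_num)), R33,
          e3b, e3t]
        constructor <;> linarith [h0.2.1]
  | succ n hn ih =>
    intro X R u α β α' β' hV h0 hn1 hord hne hnX hinj hpp hpX
    have u0X := h0.1
    have unX := hn1.1
    obtain ⟨b1, hb1, hb1'⟩ := exists_between h0.2.1
    obtain ⟨t1, ht1, ht1'⟩ := exists_between hb1'
    have n1 : u 1 ∉ X := hnX 1 (by norm_num) (by omega)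
    obtain ⟨q1, e1l, e1b, e1t, V1, W1, W1a, W1b⟩ := pend hV (w := u 1) (v := u 0)
      n1 h0 (by
        intro x hx
        rw [hpX 1 (by norm_num) (by omega) x hx]
        constructor
        · rintro (h | h)
          · exact h.1
          · omega
        · intro h; exact Or.inl ⟨h, rfl⟩) hb1 ht1 ht1' (x0 := (R (u 0)).l - 1) (by linarith)
    obtain ⟨X1, hX1⟩ : ∃ X1, X1 = insert (u 1) X := ⟨_, rfl⟩
    obtain ⟨R1, hR1⟩ : ∃ R1, R1 = Function.update R (u 1) q1 := ⟨_, rfl⟩
    rw [← hX1, ← hR1] at V1 W1 W1a
    have R1X : ∀ x ∈ X, R1 x = R x := by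
      intro x hx
      rw [hR1, Function.update_of_ne]
      rintro rfl; exact n1 hx
    have R11 : R1 (u 1) = q1 := by rw [hR1, Function.update_self]
    have W1n : Vis X1 R1 (u (n + 1)) α' β' := by
      rw [hX1, hR1]
      refine vis_insert hn1 n1 (Or.inr (Or.inl ?_))
      rw [e1t]; linarith
    obtain ⟨R2, A, B, g1, g2, g3, g4, g5, g6, g7⟩ := ih X1 R1 (fun a => u (a + 1)) b1 t1 α' β'
      V1 W1 W1n (by linarith)
      (fun h => by
        have := hinj 1 (n + 1) (by omega) (le_refl _) h
        omega)
      (by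
        intro a ha ha'
        rw [hX1, mem_insert]
        rintro (h | h)
        · have := hinj (a + 1) 1 (by omega) (by omega) h
          omega
        · exact hnX (a + 1) (by omega) (by omega) h)
      (by
        intro a b ha hb h
        have := hinj (a + 1) (b + 1) (by omega) (by omega) h
        omega)
      (by
        intro a b ha ha' hb hb'
        rw [hpp (a + 1) (b + 1) (by omega) (by omega) (by omega) (by omega)]
        omega)
      (by
        intro a ha ha' x hx
        rw [hX1, mem_insert] at hx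
        rcases hx with rfl | hx
        · rw [hpp (a + 1) 1 (by omega) (by omega) (by omega) (by omega)]
          constructor
          · intro h; left; exact ⟨rfl, by omega⟩
          · rintro (h | h)
            · omega
            · have := hinj 1 (n + 1) (by omega) (by omega) h.1
              omega
        · rw [hpX (a + 1) (by omega) (by omega) x hx]
          constructor
          · rintro (h | h)
            · omega
            · right; exact ⟨h.1, by omega⟩
          · rintro (h | h)
            · exact absurd (h.1 ▸ hx) (hnX 1 (by omega) (by omega))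
            · right; exact ⟨h.1, by omega⟩)
    have hX2 : pathSet X1 n (fun a => u (a + 1)) = pathSet X (n + 1) u := by
      ext x
      rw [mem_pathSet, mem_pathSet, hX1, mem_insert]
      constructor
      · rintro ((rfl | h) | ⟨a, ha, rfl⟩)
        · exact Or.inr ⟨1, by omega, rfl⟩
        · exact Or.inl h
        · exact Or.inr ⟨a + 1, by omega, rfl⟩
      · rintro (h | ⟨a, ha, rfl⟩)
        · exact Or.inl (Or.inr h)
        · by_cases ha1 : a = 1
          · subst ha1; exact Or.inl (Or.inl rfl)
          · refine Or.inr ⟨a - 1, by omega, ?_⟩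
            rw [show a - 1 + 1 = a by omega]
    rw [hX2] at g2 g3
    have hb_t : ∀ a, 0 < a → a < n → (R2 (u (a + 1))).t ≤ α ∨ b1 ≤ (R2 (u (a + 1))).b := by
      intro a ha ha'
      right; exact (g7 a ha ha').1.le
    have W20 : Vis (pathSet X (n + 1) u) R2 (u 0) α b1 := by
      have := vis_extend (Y := (Ioo 0 n).image (fun a => u (a + 1))) W1a g1 (by
        intro y hy
        rw [mem_image] at hy
        obtain ⟨a, ha, rfl⟩ := hy
        rw [mem_Ioo] at ha
        exact hb_t a ha.1 ha.2)
      rw [← hX2]; exact this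
    refine ⟨R2, fun a => if a = 0 then α else A (a - 1), fun a => if a = 0 then b1 else B (a - 1),
      ?_, g2, ?_, ?_, ?_, ?_, ?_⟩
    · intro x hx
      rw [g1 x (by rw [hX1]; exact mem_insert_of_mem hx), R1X x hx]
    · intro a ha
      by_cases ha0 : a = 0
      · subst ha0; simpa using W20
      · simp only [if_neg ha0]
        have := g3 (a - 1) (by omega)
        rwa [show a - 1 + 1 = a by omega] at this
    · intro a ha
      by_cases ha0 : a = 0
      · subst ha0; simpa using g5
      · simp only [if_neg ha0]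
        rw [if_neg (by omega)]
        have := g4 (a - 1) (by omega)
        rwa [show a - 1 + 1 = a + 1 - 1 by omega] at this
    · simp
    · simp only [Nat.succ_ne_zero, if_false, Nat.add_sub_cancel]
      exact g6
    · intro a ha ha'
      by_cases ha1 : a = 1
      · subst ha1
        rw [g1 (u 1) (by rw [hX1]; exact mem_insert_self _ _), R11, e1b, e1t]
        constructor <;> linarith [hn1.2.1]
      · have := g7 (a - 1) (by omega) (by omega)
        rw [show a - 1 + 1 = a by omega] at this
        exact ⟨by linarith [this.1], this.2⟩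

end Pool.Agent.Q296.CBU
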